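import Pool.Agent.T2H39.UG.Dich

set_option autoImplicit false

/-! The rational points of a closed subset of projective space of dimension at most one which is
defined over a larger field: finitely many homogeneous prime ideals of dimension at most two. -/

namespace Pool.Agent.T2H39.UG

open MvPolynomial

section cmp

variable {K L ι : Type} [Field K] [Field L] [Algebra K L]

/-- The functional `φ` applied to the coefficients. -/
noncomputable def cmp (φ : Module.Dual K L) (P : MvPolynomial ι L) : MvPolynomial ι K :=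
  ∑ κ ∈ P.support, monomial κ (φ (coeff κ P))

lemma coeff_cmp (φ : Module.Dual K L) (P : MvPolynomial ι L) (κ : ι →₀ ℕ) :
    coeff κ (cmp φ P) = φ (coeff κ P) := by
  classical
  unfold cmp
  rw [coeff_sum]
  simp_rw [coeff_monomial]
  rw [Finset.sum_ite_eq']
  split_ifs with h
  · rfl
  · rw [notMem_support_iff.1 h, map_zero]

lemma aeval_cmp [Fintype ι] (φ : Module.Dual K L) (P : MvPolynomial ι L) (w : ι → K) :
    aeval w (cmp φ P) = φ (eval (fun i => algebraMap K L (w i)) P) := by
  classical
  have h1 : eval (fun i => algebraMap K L (w i)) P = ∑ κ ∈ P.support,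
      (∏ i, w i ^ κ i) • coeff κ P := by
    rw [eval_eq']
    refine Finset.sum_congr rfl fun κ _ => ?_
    rw [Algebra.smul_def, map_prod, mul_comm]
    simp only [map_pow]
  unfold cmp
  rw [h1, map_sum, map_sum]
  refine Finset.sum_congr rfl fun κ _ => ?_
  rw [map_smul, smul_eq_mul, aeval_monomial, Finsupp.prod_fintype _ _ (by simp), mul_comm]
  rfl

lemma cmp_ne_zero (P : MvPolynomial ι L) (hP : P ≠ 0) : ∃ φ : Module.Dual K L, cmp φ P ≠ 0 := by
  obtain ⟨κ, hκ⟩ := ne_zero_iff.1 hP
  have h1 : ¬ ∀ φ : Module.Dual K L, φ (coeff κ P) = 0 := by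
    intro h
    exact hκ ((Module.forall_dual_apply_eq_zero_iff K _).1 h)
  push Not at h1
  obtain ⟨φ, hφ⟩ := h1
  refine ⟨φ, fun h => hφ ?_⟩
  rw [← coeff_cmp, h, coeff_zero]

end cmp

section cone

variable {K : Type} [Field K] [Infinite K] {N : ℕ}

/-- A polynomial which vanishes on a cone: so do its homogeneous components. -/
lemma component_mem (Z : Set (Fin N → K)) (hZ : ∀ x ∈ Z, ∀ t : K, (fun i => t * x i) ∈ Z)
    (p : MvPolynomial (Fin N) K) (hp : p ∈ vanishingIdeal K Z) (e : ℕ) :
    homogeneousComponent e p ∈ vanishingIdeal K Z := by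
  intro x hx
  set q : Polynomial K := ∑ i ∈ Finset.range (p.totalDegree + 1),
    Polynomial.C (aeval x (homogeneousComponent i p)) * Polynomial.X ^ i with hq
  have hq0 : q = 0 := by
    apply Polynomial.funext
    intro t
    rw [Polynomial.eval_zero]
    have h1 := hp _ (hZ x hx t)
    rw [← h1]
    conv_rhs => rw [← sum_homogeneousComponent p]
    rw [map_sum, hq, Polynomial.eval_finsetSum]
    refine Finset.sum_congr rfl fun i _ => ?_
    rw [Polynomial.eval_mul, Polynomial.eval_C, Polynomial.eval_pow, Polynomial.eval_X]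
    rw [Pool.Agent.R847.HG.aeval_scale _ i (homogeneousComponent_isHomogeneous i p), mul_comm]
  by_cases he : e < p.totalDegree + 1
  · have h1 := congrArg (fun r : Polynomial K => r.coeff e) hq0
    simp only [hq, Polynomial.finsetSum_coeff, Polynomial.coeff_C_mul, Polynomial.coeff_X_pow,
      Polynomial.coeff_zero] at h1
    rw [Finset.sum_eq_single e] at h1
    · simpa using h1
    · intro b _ hb
      rw [if_neg (Ne.symm hb), mul_zero]
    · intro h
      exact absurd (Finset.mem_range.2 he) h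
  · rw [homogeneousComponent_eq_zero e p (by omega), map_zero]

attribute [local instance] MvPolynomial.gradedAlgebra in
/-- A homogeneous ideal is generated by its forms; so are its minimal primes. -/
lemma minimal_span (I p : Ideal (MvPolynomial (Fin N) K))
    (hI : ∀ g ∈ I, ∀ e, homogeneousComponent e g ∈ I) (hp : p ∈ I.minimalPrimes) :
    Ideal.span {g | g ∈ p ∧ ∃ e : ℕ, g.IsHomogeneous e} = p := by
  classical
  have hpp : p.IsPrime := hp.1.1
  set J : Ideal (MvPolynomial (Fin N) K) := Ideal.span {g | g ∈ p ∧ ∃ e : ℕ, g.IsHomogeneous e}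
    with hJ
  have hJp : J ≤ p := by
    rw [hJ, Ideal.span_le]
    intro g hg
    exact hg.1
  have hIJ : I ≤ J := by
    intro g hg
    rw [← sum_homogeneousComponent g]
    apply Submodule.sum_mem
    intro e _
    apply Ideal.subset_span
    exact ⟨hp.1.2 (hI g hg e), e, homogeneousComponent_isHomogeneous e g⟩
  have hJprime : J.IsPrime := by
    have h1 := Ideal.IsPrime.homogeneousCore (𝒜 := homogeneousSubmodule (Fin N) K) hpp
    have h2 : (p.homogeneousCore (homogeneousSubmodule (Fin N) K)).toIdeal = J := by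
      change Ideal.homogeneousCore' (homogeneousSubmodule (Fin N) K) p = J
      rw [hJ]
      unfold Ideal.homogeneousCore'
      congr 1
      ext g
      constructor
      · rintro ⟨⟨g', e, he⟩, hg', rfl⟩
        exact ⟨hg', e, he⟩
      · rintro ⟨hg, e, he⟩
        exact ⟨⟨g, e, he⟩, hg, rfl⟩
    rw [h2] at h1
    exact h1
  exact le_antisymm hJp (hp.2 ⟨hJprime, hIJ⟩ hJp)

/-- Three coordinates of a variety are always dependent: the dimension is at most two. -/
lemma trdeg_le_two (p : Ideal (MvPolynomial (Fin N) K)) [hp : p.IsPrime]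
    (h : ∀ i j l, ∃ P : MvPolynomial (Fin 3) K, P ≠ 0 ∧ aeval ![X i, X j, X l] P ∈ p) :
    Algebra.trdeg K (MvPolynomial (Fin N) K ⧸ p) ≤ 2 := by
  classical
  set A := MvPolynomial (Fin N) K ⧸ p
  set xb : Fin N → A := fun i => Ideal.Quotient.mk p (X i) with hxb
  have hadj : Algebra.adjoin K (Set.range xb) = ⊤ := by
    have h1 : Algebra.adjoin K (Set.range (X : Fin N → MvPolynomial (Fin N) K)) = ⊤ :=
      MvPolynomial.adjoin_range_X
    have h2 := congrArg (Subalgebra.map (Ideal.Quotient.mkₐ K p)) h1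
    rw [AlgHom.map_adjoin, ← Set.range_comp, Algebra.map_top] at h2
    have h3 : (Ideal.Quotient.mkₐ K p).range = ⊤ := by
      rw [AlgHom.range_eq_top]
      exact Ideal.Quotient.mkₐ_surjective K p
    rw [h3] at h2
    exact h2
  haveI : Algebra.IsAlgebraic (Algebra.adjoin K (Set.range xb)) A := by
    constructor
    intro a
    have ha : a ∈ Algebra.adjoin K (Set.range xb) := by rw [hadj]; trivial
    exact isAlgebraic_algebraMap (⟨a, ha⟩ : Algebra.adjoin K (Set.range xb))
  obtain ⟨t, ht, hbt⟩ := exists_isTranscendenceBasis_subset (R := K) (A := A) (Set.range xb)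
  rw [← hbt.cardinalMk_eq_trdeg]
  by_contra hcon
  rw [not_le] at hcon
  have hfin : t.Finite := (Set.finite_range xb).subset ht
  have hcard : 3 ≤ t.ncard := by
    have : Finite t := hfin
    rw [← Nat.card_coe_set_eq]
    have h1 : Cardinal.mk t = (Nat.card t : Cardinal) := by
      rw [Nat.cast_card]
    rw [h1] at hcon
    have h2 : (2 : Cardinal) = ((2 : ℕ) : Cardinal) := by norm_num
    rw [h2, Nat.cast_lt] at hcon
    omega
  obtain ⟨u, hut, hu⟩ := Set.exists_subset_card_eq hcard
  obtain ⟨a, b, c, hab, hac, hbc, habc⟩ := Set.ncard_eq_three.1 hu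
  have ha : a ∈ t := hut (by rw [habc]; simp)
  have hb : b ∈ t := hut (by rw [habc]; simp)
  have hc : c ∈ t := hut (by rw [habc]; simp)
  obtain ⟨i, hi⟩ := ht ha
  obtain ⟨j, hj⟩ := ht hb
  obtain ⟨l, hl⟩ := ht hc
  obtain ⟨P, hP, hPp⟩ := h i j l
  have hinj : Function.Injective (![⟨a, ha⟩, ⟨b, hb⟩, ⟨c, hc⟩] : Fin 3 → t) := by
    intro m n hmn
    fin_cases m <;> fin_cases n <;> simp_all
  have hind := hbt.1.comp _ hinj
  have h1 : aeval ((fun x : t => (x : A)) ∘ (![⟨a, ha⟩, ⟨b, hb⟩, ⟨c, hc⟩] : Fin 3 → t)) P = 0 := by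
    have h2 : ((fun x : t => (x : A)) ∘ (![⟨a, ha⟩, ⟨b, hb⟩, ⟨c, hc⟩] : Fin 3 → t)) =
        fun m => (Ideal.Quotient.mkₐ K p) ((![X i, X j, X l] :
          Fin 3 → MvPolynomial (Fin N) K) m) := by
      funext m
      fin_cases m
      · exact hi.symm
      · exact hj.symm
      · exact hl.symm
    rw [h2, ← comp_aeval_apply]
    exact Ideal.Quotient.eq_zero_iff_mem.2 hPp
  exact hP ((algebraicIndependent_iff.1 hind) P h1)

end cone

section main

variable {K L : Type} [Field K] [Infinite K] [Field L] [Algebra K L] {N : ℕ}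

/-- **Decomposition**: the rational points of a closed subset of dimension at most one are the
rational points of finitely many primes of dimension at most two. -/
theorem exists_decomp (V : Set (MvPolynomial (Fin N) L)) (hV : ∀ g ∈ V, ∃ e : ℕ, g.IsHomogeneous e)
    (hdim : ∀ i j l, ∃ P : MvPolynomial (Fin 3) L, P ≠ 0 ∧
      ∀ z : Fin N → L, (∀ g ∈ V, eval z g = 0) → eval ![z i, z j, z l] P = 0) :
    ∃ (s : ℕ) (S : Fin s → Set (MvPolynomial (Fin N) K)),
      (∀ i, ∀ g ∈ S i, ∃ e : ℕ, g.IsHomogeneous e) ∧ (∀ i, (Ideal.span (S i)).IsPrime) ∧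
      (∀ i, Algebra.trdeg K (MvPolynomial (Fin N) K ⧸ Ideal.span (S i)) ≤ 2) ∧
      ∀ x : Fin N → K, (∀ g ∈ V, eval (fun i => algebraMap K L (x i)) g = 0) ↔
        ∃ i, ∀ g ∈ S i, aeval x g = 0 := by
  classical
  set Z : Set (Fin N → K) := {x | ∀ g ∈ V, eval (fun i => algebraMap K L (x i)) g = 0} with hZ
  have hcone : ∀ x ∈ Z, ∀ t : K, (fun i => t * x i) ∈ Z := by
    intro x hx t g hg
    obtain ⟨e, he⟩ := hV g hg
    have h1 : (fun i => algebraMap K L (t * x i)) =
        fun i => algebraMap K L t * algebraMap K L (x i) := by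
      funext i
      rw [map_mul]
    rw [h1, ← coe_aeval_eq_eval]
    have h2 := Pool.Agent.R847.HG.aeval_scale g e he (algebraMap K L t)
      (fun i => algebraMap K L (x i))
    have h3 := hx g hg
    rw [← coe_aeval_eq_eval] at h3
    change aeval (fun i => algebraMap K L (x i)) g = 0 at h3
    change aeval (fun i => algebraMap K L t * algebraMap K L (x i)) g = 0
    rw [h2, h3, mul_zero]
  set I := vanishingIdeal K Z with hI
  have hIc : ∀ g ∈ I, ∀ e, homogeneousComponent e g ∈ I := fun g hg e =>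
    component_mem Z hcone g hg e
  have hfin := I.finite_minimalPrimes_of_isNoetherianRing
  obtain ⟨s, ⟨q⟩⟩ : ∃ s : ℕ, Nonempty (Fin s ≃ I.minimalPrimes) := by
    have : Finite I.minimalPrimes := hfin
    exact ⟨Nat.card I.minimalPrimes, ⟨(Finite.equivFin _).symm⟩⟩
  set S : Fin s → Set (MvPolynomial (Fin N) K) := fun i =>
    {g | g ∈ (q i : Ideal (MvPolynomial (Fin N) K)) ∧ ∃ e : ℕ, g.IsHomogeneous e} with hS
  have hspan : ∀ i, Ideal.span (S i) = (q i : Ideal (MvPolynomial (Fin N) K)) := fun i =>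
    minimal_span I _ hIc (q i).2
  have hcmp : ∀ x : Fin N → K, x ∈ Z ↔ ∀ g ∈ V, ∀ φ : Module.Dual K L, aeval x (cmp φ g) = 0 := by
    intro x
    constructor
    · intro hx g hg φ
      rw [aeval_cmp, hx g hg, map_zero]
    · intro h g hg
      rw [← Module.forall_dual_apply_eq_zero_iff K]
      intro φ
      rw [← aeval_cmp]
      exact h g hg φ
  refine ⟨s, S, fun i g hg => hg.2, fun i => ?_, fun i => ?_, fun x => ⟨fun hx => ?_, ?_⟩⟩
  · rw [hspan]
    exact (q i).2.1.1
  · have hpr : (Ideal.span (S i)).IsPrime := by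
      rw [hspan]
      exact (q i).2.1.1
    apply trdeg_le_two (Ideal.span (S i))
    intro a b c
    obtain ⟨P, hP, hP0⟩ := hdim a b c
    obtain ⟨φ, hφ⟩ := cmp_ne_zero (K := K) P hP
    refine ⟨cmp φ P, hφ, ?_⟩
    rw [hspan]
    apply (q i).2.1.2
    intro x hx
    rw [comp_aeval_apply]
    have h1 : (fun m => aeval x ((![X a, X b, X c] : Fin 3 → MvPolynomial (Fin N) K) m)) =
        ![x a, x b, x c] := by
      funext m
      fin_cases m <;> simp
    rw [h1, aeval_cmp]
    have h2 : (fun m => algebraMap K L ((![x a, x b, x c] : Fin 3 → K) m)) =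
        ![algebraMap K L (x a), algebraMap K L (x b), algebraMap K L (x c)] := by
      funext m
      fin_cases m <;> rfl
    rw [h2, hP0 (fun m => algebraMap K L (x m)) hx, map_zero]
  · -- the ideal of the point
    set J : Ideal (MvPolynomial (Fin N) K) := RingHom.ker (aeval x : MvPolynomial (Fin N) K →ₐ[K] K)
      with hJ
    haveI : J.IsPrime := RingHom.ker_isPrime _
    have hIJ : I ≤ J := fun g hg => hg x hx
    obtain ⟨p, hp, hpJ⟩ := Ideal.exists_minimalPrimes_le hIJ
    refine ⟨q.symm ⟨p, hp⟩, fun g hg => ?_⟩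
    have h1 : g ∈ (q (q.symm ⟨p, hp⟩) : Ideal (MvPolynomial (Fin N) K)) := hg.1
    rw [Equiv.apply_symm_apply] at h1
    exact hpJ h1
  · rintro ⟨i, hi⟩
    change x ∈ Z
    rw [hcmp]
    intro g hg φ
    have h1 : cmp φ g ∈ I := by
      intro y hy
      exact (hcmp y).1 hy g hg φ
    have h2 : cmp φ g ∈ Ideal.span (S i) := by
      rw [hspan]
      exact (q i).2.1.2 h1
    have h3 : Ideal.span (S i) ≤ RingHom.ker (aeval x : MvPolynomial (Fin N) K →ₐ[K] K) := by
      rw [Ideal.span_le]
      intro g hg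
      exact hi g hg
    exact h3 h2

end main

end Pool.Agent.T2H39.UG
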