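import Pool.Agent.T2H39.UG.Deg
import Pool.Agent.T2H39.UG.Cone

set_option autoImplicit false

/-! The density of the return times to a closed set of dimension at most one, for all rational maps
over all infinite fields. -/

namespace Pool.Agent.T2H39.UG

open MvPolynomial Pool.Agent.R847.HG

/-- Few pairs at each distance: the set is sparse in all intervals. -/
lemma density {E D : ℝ} (hE : 0 ≤ E) (hD : 1 ≤ D) (B : Set ℕ)
    (h : ∀ k, 0 < k → ∀ T : Finset ℕ, (∀ m ∈ T, m ∈ B ∧ m + k ∈ B) → (T.card : ℝ) ≤ E * D ^ k)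
    (M n : ℕ) (hn : 2 ≤ n) :
    ((B ∩ Set.Ico M (M + n)).ncard : ℝ) ≤
      (4 * Real.log (2 * D) + 2 * (1 + E)) * (n / Real.log n) := by
  classical
  have hfin : (B ∩ Set.Ico M (M + n)).Finite := (Set.finite_Ico M (M + n)).subset
    Set.inter_subset_right
  set T := hfin.toFinset with hT
  rw [Set.ncard_eq_toFinset_card _ hfin, ← hT]
  have hmem : ∀ x, x ∈ T ↔ x ∈ B ∧ M ≤ x ∧ x < M + n := by
    intro x
    rw [hT, Set.Finite.mem_toFinset]
    rfl
  have hn1 : (1 : ℝ) < n := by exact_mod_cast (show 1 < n by omega)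
  have hn0 : (0 : ℝ) < n := by linarith
  have hlog : 0 < Real.log n := Real.log_pos hn1
  have hL : 0 < Real.log (2 * D) := Real.log_pos (by linarith)
  have hcardn : (T.card : ℝ) ≤ n := by
    have h1 : T ⊆ Finset.Ico M (M + n) := by
      intro x hx
      rw [Finset.mem_Ico]
      exact ((hmem x).1 hx).2
    have h2 := Finset.card_le_card h1
    rw [Nat.card_Ico, Nat.add_sub_cancel_left] at h2
    exact_mod_cast h2
  have hnl : 0 < (n : ℝ) / Real.log n := by positivity
  by_cases hsmall : Real.log n < 2 * Real.log (2 * D)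
  · have h1 : (n : ℝ) ≤ (2 * Real.log (2 * D)) * (n / Real.log n) := by
      rw [mul_div_assoc', le_div_iff₀ hlog]
      nlinarith
    have h2 : (2 * Real.log (2 * D)) * (n / Real.log n) ≤
        (4 * Real.log (2 * D) + 2 * (1 + E)) * (n / Real.log n) := by
      apply mul_le_mul_of_nonneg_right _ hnl.le
      linarith
    linarith
  · push Not at hsmall
    set t : ℝ := Real.log n / (2 * Real.log (2 * D)) with ht
    have ht1 : 1 ≤ t := by
      rw [ht, le_div_iff₀ (by positivity)]
      linarith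
    set q : ℕ := ⌊t⌋₊ with hq
    have hq1 : 1 ≤ q := by
      rw [hq, Nat.le_floor_iff (by linarith)]
      exact_mod_cast ht1
    have hqt : (q : ℝ) ≤ t := Nat.floor_le (by linarith)
    have htq : t < q + 1 := Nat.lt_floor_add_one t
    have hq1' : (1 : ℝ) ≤ q := by exact_mod_cast hq1
    have htq2 : t ≤ 2 * q := by linarith
    -- close elements
    set T1 : Finset ℕ := T.filter (fun x : ℕ => ∃ y ∈ T, x < y ∧ y ≤ x + q) with hT1
    set T2 : Finset ℕ := T.filter (fun x : ℕ => ¬ ∃ y ∈ T, x < y ∧ y ≤ x + q) with hT2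
    have hsum : T.card = T1.card + T2.card := (Finset.card_filter_add_card_filter_not
      (s := T) (fun x : ℕ => ∃ y ∈ T, x < y ∧ y ≤ x + q)).symm
    have h1 : (T1.card : ℝ) ≤ E * Real.sqrt n := by
      have hsub : T1 ⊆ (Finset.Icc 1 q).biUnion fun k => T.filter fun x : ℕ => x + k ∈ B := by
        intro x hx
        rw [hT1, Finset.mem_filter] at hx
        obtain ⟨hxT, y, hy, hxy, hyx⟩ := hx
        rw [Finset.mem_biUnion]
        refine ⟨y - x, Finset.mem_Icc.2 ⟨by omega, by omega⟩, ?_⟩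
        rw [Finset.mem_filter]
        refine ⟨hxT, ?_⟩
        have h2 : x + (y - x) = y := by omega
        rw [h2]
        exact ((hmem y).1 hy).1
      have h2 : T1.card ≤ ∑ k ∈ Finset.Icc 1 q, (T.filter fun x : ℕ => x + k ∈ B).card :=
        (Finset.card_le_card hsub).trans Finset.card_biUnion_le
      have h3 : ∀ k ∈ Finset.Icc 1 q, ((T.filter fun x : ℕ => x + k ∈ B).card : ℝ) ≤ E * D ^ q := by
        intro k hk
        rw [Finset.mem_Icc] at hk
        refine (h k (by omega) _ ?_).trans ?_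
        · intro m hm
          rw [Finset.mem_filter] at hm
          exact ⟨((hmem m).1 hm.1).1, hm.2⟩
        · exact mul_le_mul_of_nonneg_left (pow_le_pow_right₀ hD hk.2) hE
      have h4 : (T1.card : ℝ) ≤ q * (E * D ^ q) := by
        calc (T1.card : ℝ) ≤ ((∑ k ∈ Finset.Icc 1 q, (T.filter fun x : ℕ => x + k ∈ B).card : ℕ) :
              ℝ) := by exact_mod_cast h2
          _ = ∑ k ∈ Finset.Icc 1 q, ((T.filter fun x : ℕ => x + k ∈ B).card : ℝ) := by push_cast; rfl
          _ ≤ ∑ _k ∈ Finset.Icc 1 q, E * D ^ q := Finset.sum_le_sum h3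
          _ = q * (E * D ^ q) := by
            rw [Finset.sum_const, Nat.card_Icc, Nat.add_sub_cancel, nsmul_eq_mul]
      have h5 : (q : ℝ) ≤ 2 ^ q := by exact_mod_cast (Nat.lt_two_pow_self (n := q)).le
      have h6 : (q : ℝ) * (E * D ^ q) ≤ E * (2 * D) ^ q := by
        rw [mul_pow]
        have h7 : 0 ≤ E * D ^ q := by positivity
        calc (q : ℝ) * (E * D ^ q) ≤ 2 ^ q * (E * D ^ q) := mul_le_mul_of_nonneg_right h5 h7
          _ = E * (2 ^ q * D ^ q) := by ring
      have h7 : (2 * D) ^ q ≤ Real.sqrt n := by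
        rw [← Real.exp_log (show (0 : ℝ) < 2 * D by linarith), ← Real.exp_nat_mul,
          Real.sqrt_eq_rpow, Real.rpow_def_of_pos hn0]
        apply Real.exp_le_exp.2
        have h8 : (q : ℝ) * Real.log (2 * D) ≤ t * Real.log (2 * D) :=
          mul_le_mul_of_nonneg_right hqt hL.le
        have h9 : t * Real.log (2 * D) = Real.log n * (1 / 2) := by
          rw [ht]
          field_simp
        linarith
      calc (T1.card : ℝ) ≤ E * (2 * D) ^ q := h4.trans h6
        _ ≤ E * Real.sqrt n := mul_le_mul_of_nonneg_left h7 hE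
    -- isolated elements
    have h2 : (T2.card : ℝ) ≤ n / q + 1 := by
      have hmaps : ∀ x ∈ T2, (x - M) / q ∈ Finset.range (n / q + 1) := by
        intro x hx
        rw [hT2, Finset.mem_filter] at hx
        have := (hmem x).1 hx.1
        rw [Finset.mem_range]
        have h3 : (x - M) / q ≤ n / q := Nat.div_le_div_right (by omega)
        omega
      have hinj : Set.InjOn (fun x : ℕ => (x - M) / q) (T2 : Set ℕ) := by
        have key : ∀ x ∈ T2, ∀ y ∈ T2, x < y → (x - M) / q < (y - M) / q := by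
          intro x hx y hy hxy
          rw [hT2, Finset.mem_filter] at hx hy
          have hx1 := (hmem x).1 hx.1
          have hfar : x + q < y := by
            by_contra hcon
            push Not at hcon
            exact hx.2 ⟨y, hy.1, hxy, hcon⟩
          have h3 : (x - M) / q + 1 = (x - M + q) / q := by
            rw [Nat.add_div_right _ (by omega)]
          have h4 : (x - M + q) / q ≤ (y - M) / q := Nat.div_le_div_right (by omega)
          omega
        intro x hx y hy hxy
        rcases lt_trichotomy x y with h3 | h3 | h3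
        · exact absurd hxy (key x hx y hy h3).ne
        · exact h3
        · exact absurd hxy.symm (key y hy x hx h3).ne
      have h3 := Finset.card_le_card_of_injOn (fun x : ℕ => (x - M) / q) hmaps hinj
      rw [Finset.card_range] at h3
      have h4 : ((n / q : ℕ) : ℝ) ≤ n / q := Nat.cast_div_le
      have h5 : (T2.card : ℝ) ≤ ((n / q + 1 : ℕ) : ℝ) := by exact_mod_cast h3
      push_cast at h5
      linarith
    have h3 : (n : ℝ) / q ≤ 4 * Real.log (2 * D) * (n / Real.log n) := by
      rw [div_le_iff₀ (by linarith)]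
      have h4 : 4 * Real.log (2 * D) * (n / Real.log n) * q =
          n * ((2 * q) * (2 * Real.log (2 * D) / Real.log n)) := by ring
      rw [h4]
      have h5 : 1 ≤ (2 * q) * (2 * Real.log (2 * D) / Real.log n) := by
        have h6 : t * (2 * Real.log (2 * D) / Real.log n) = 1 := by
          rw [ht]
          field_simp
        rw [← h6]
        exact mul_le_mul_of_nonneg_right htq2 (by positivity)
      nlinarith
    have hsq : 1 ≤ Real.sqrt n := by
      rw [Real.one_le_sqrt]
      linarith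
    have h4 : Real.sqrt n ≤ 2 * (n / Real.log n) := by
      rw [mul_div_assoc', le_div_iff₀ hlog]
      have h5 : Real.log n ≤ 2 * Real.sqrt n := by
        have h6 : Real.log (Real.sqrt n) ≤ Real.sqrt n - 1 :=
          Real.log_le_sub_one_of_pos (by linarith)
        rw [Real.log_sqrt hn0.le] at h6
        linarith
      have h6 : Real.sqrt n * Real.sqrt n = n := Real.mul_self_sqrt hn0.le
      nlinarith
    rw [hsum]
    push_cast
    have h5 : 1 + E * Real.sqrt n ≤ (1 + E) * (2 * (n / Real.log n)) := by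
      calc 1 + E * Real.sqrt n ≤ (1 + E) * Real.sqrt n := by nlinarith
        _ ≤ _ := mul_le_mul_of_nonneg_left h4 (by linarith)
    calc (T1.card : ℝ) + T2.card ≤ E * Real.sqrt n + (4 * Real.log (2 * D) * (n / Real.log n) + 1) := by
          linarith
      _ ≤ 4 * Real.log (2 * D) * (n / Real.log n) + (1 + E) * (2 * (n / Real.log n)) := by linarith
      _ = _ := by ring

variable {K : Type} [Field K]

/-- Either the curve is mapped to itself by an iterate, or the number of points of the curve which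
are mapped to the curve by the `k`-th iterate is at most exponential in `k`. -/
theorem dichotomy_count [Infinite K] {N d : ℕ}
    (hd : 2 ≤ d) (f : Fin (N + 1) → MvPolynomial (Fin (N + 1)) K)
    (hf : ∀ i, (f i).IsHomogeneous d)
    (S : Set (MvPolynomial (Fin (N + 1)) K)) (hS : ∀ g ∈ S, ∃ e : ℕ, g.IsHomogeneous e)
    (hprime : (Ideal.span S).IsPrime)
    (htr : Algebra.trdeg K (MvPolynomial (Fin (N + 1)) K ⧸ Ideal.span S) ≤ 2) :
    (∃ k, 0 < k ∧ ∀ x : Fin (N + 1) → K, (∀ g ∈ S, aeval x g = 0) →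
      ∀ g ∈ S, aeval ((stepR f)^[k] x) g = 0) ∨
    ∃ C : ℕ, ∀ k, 0 < k → ∃ W : Finset (Fin (N + 1) → K), W.card ≤ (N + 1) * (C * d ^ k) ^ (N + 1) ∧
      ∀ x : Fin (N + 1) → K, x ≠ 0 → (∀ g ∈ S, aeval x g = 0) →
      (∀ g ∈ S, aeval ((stepR f)^[k] x) g = 0) → ∃ c : K, c ≠ 0 ∧ c • x ∈ W := by
  classical
  set xb : Fin (N + 1) → MvPolynomial (Fin (N + 1)) K ⧸ Ideal.span S :=
    fun l => Ideal.Quotient.mk (Ideal.span S) (X l) with hxb
  by_cases hA : ∃ k, 0 < k ∧ ∀ g ∈ S, aeval ((stepR f)^[k] xb) g = 0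
  · left
    obtain ⟨k, hk, hA⟩ := hA
    refine ⟨k, hk, fun x hx g hg => ?_⟩
    obtain ⟨ev, hev⟩ := exists_ev S x hx
    have h1 := congrArg ev (hA g hg)
    rw [comp_aeval_apply, ← stepR_map f ev xb k, map_zero] at h1
    have h2 : (fun l => ev (xb l)) = x := funext hev
    rw [h2] at h1
    exact h1
  · right
    push Not at hA
    -- finitely many generators
    have hfg : (Ideal.span S).FG := IsNoetherian.noetherian _
    obtain ⟨S₀, hS₀S, hS₀⟩ := (Submodule.fg_span_iff_fg_span_finset_subset S).1 hfg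
    have hA' : ∀ k, 0 < k → ∃ g ∈ S₀, aeval ((stepR f)^[k] xb) g ≠ 0 := by
      intro k hk
      by_contra hcon
      push Not at hcon
      obtain ⟨g, hg, hgne⟩ := hA k hk
      apply hgne
      have h1 : g ∈ Ideal.span (S₀ : Set (MvPolynomial (Fin (N + 1)) K)) := by
        have : g ∈ Submodule.span (MvPolynomial (Fin (N + 1)) K) S := Submodule.subset_span hg
        rw [hS₀] at this
        exact this
      have h2 : Ideal.span (S₀ : Set (MvPolynomial (Fin (N + 1)) K)) ≤
          RingHom.ker (aeval ((stepR f)^[k] xb) : MvPolynomial (Fin (N + 1)) K →ₐ[K] _) := by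
        rw [Ideal.span_le]
        intro g hg
        exact hcon g hg
      exact h2 h1
    -- constants
    have hconst : ∀ q : (Fin (N + 1) × Fin (N + 1)) × S₀, ∃ C : ℕ, ∀ k : ℕ,
        aeval ((stepR f)^[k] xb) (q.2 : MvPolynomial (Fin (N + 1)) K) ≠ 0 →
        ∃ T : Finset K, T.card ≤ C * d ^ k ∧ ∀ x : Fin (N + 1) → K, (∀ g ∈ S, aeval x g = 0) →
          x q.1.1 ≠ 0 → aeval ((stepR f)^[k] x) (q.2 : MvPolynomial (Fin (N + 1)) K) = 0 →
          x q.1.2 / x q.1.1 ∈ T := by
      rintro ⟨⟨i, j⟩, ⟨g, hg⟩⟩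
      obtain ⟨e, he⟩ := hS g (hS₀S hg)
      exact pair_count S hS htr f d hd hf g e he i j
    choose Cq hCq using hconst
    refine ⟨∑ q, Cq q, fun k hk => ?_⟩
    obtain ⟨g, hg, hgne⟩ := hA' k hk
    have hT : ∀ i j : Fin (N + 1), ∃ T : Finset K, T.card ≤ (∑ q, Cq q) * d ^ k ∧
        ∀ x : Fin (N + 1) → K, (∀ g ∈ S, aeval x g = 0) → x i ≠ 0 →
          aeval ((stepR f)^[k] x) g = 0 → x j / x i ∈ T := by
      intro i j
      obtain ⟨T, hT, h⟩ := hCq ((i, j), ⟨g, hg⟩) k hgne
      refine ⟨T, hT.trans (Nat.mul_le_mul_right _ ?_), h⟩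
      exact Finset.single_le_sum (f := Cq) (fun _ _ => Nat.zero_le _) (Finset.mem_univ _)
    choose T hTc hTm using hT
    refine ⟨Finset.univ.biUnion fun i => Fintype.piFinset (T i), ?_, fun x hx0 hx hxk => ?_⟩
    · refine Finset.card_biUnion_le.trans ?_
      calc ∑ i : Fin (N + 1), (Fintype.piFinset (T i)).card ≤
            ∑ _i : Fin (N + 1), ((∑ q, Cq q) * d ^ k) ^ (N + 1) := by
            apply Finset.sum_le_sum
            intro i _
            rw [Fintype.card_piFinset]
            calc ∏ j, (T i j).card ≤ ∏ _j : Fin (N + 1), (∑ q, Cq q) * d ^ k :=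
                  Finset.prod_le_prod' fun j _ => hTc i j
              _ = _ := by rw [Finset.prod_const, Finset.card_univ, Fintype.card_fin]
        _ = _ := by rw [Finset.sum_const, Finset.card_univ, Fintype.card_fin, smul_eq_mul]
    · obtain ⟨i, hi⟩ := Function.ne_iff.1 hx0
      rw [Pi.zero_apply] at hi
      refine ⟨(x i)⁻¹, inv_ne_zero hi, ?_⟩
      rw [Finset.mem_biUnion]
      refine ⟨i, Finset.mem_univ _, ?_⟩
      rw [Fintype.mem_piFinset]
      intro j
      have h1 := hTm i j x hx hi (hxk g (hS₀S hg))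
      rw [Pi.smul_apply, smul_eq_mul, inv_mul_eq_div]
      exact h1

section ret

variable {L : Type} [Field L] [Algebra K L] {N d : ℕ}

/-- the return set -/
def ret (f : Fin (N + 1) → MvPolynomial (Fin (N + 1)) K) (V : Set (MvPolynomial (Fin (N + 1)) L))
    (a : Fin (N + 1) → K) : Set ℕ :=
  {n | ∀ g ∈ V, eval (fun i => algebraMap K L ((stepR f)^[n] a i)) g = 0}

/-- **Return sets are sparse in all intervals**, uniformly in the point, for all rational maps over
all infinite fields. -/
theorem density_gap [Infinite K] (hd : 2 ≤ d) (f : Fin (N + 1) → MvPolynomial (Fin (N + 1)) K)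
    (hf : ∀ i, (f i).IsHomogeneous d) (V : Set (MvPolynomial (Fin (N + 1)) L))
    (hV : ∀ g ∈ V, ∃ e : ℕ, g.IsHomogeneous e)
    (hdim : ∀ i j l, ∃ P : MvPolynomial (Fin 3) L, P ≠ 0 ∧
      ∀ z : Fin (N + 1) → L, (∀ g ∈ V, eval z g = 0) → eval ![z i, z j, z l] P = 0) :
    ∃ (k : ℕ) (C : ℝ), 0 < k ∧ ∀ a : Fin (N + 1) → K,
      (∀ m n, m < n → ∀ c : K, (stepR f)^[n] a ≠ c • (stepR f)^[m] a) →
      ∃ A B : Set ℕ, ret f V a = A ∪ B ∧ (∀ n ∈ A, n + k ∈ A) ∧
        ∀ M n : ℕ, 2 ≤ n → ((B ∩ Set.Ico M (M + n)).ncard : ℝ) ≤ C * (n / Real.log n) := by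
  classical
  obtain ⟨s, S, hS1, hS2, hS3, hS4⟩ := exists_decomp (K := K) V hV hdim
  have hdich := fun i => dichotomy_count hd f hf (S i) (hS1 i) (hS2 i) (hS3 i)
  set P : Fin s → Prop := fun i => ∃ k, 0 < k ∧ ∀ x : Fin (N + 1) → K,
    (∀ g ∈ S i, aeval x g = 0) → ∀ g ∈ S i, aeval ((stepR f)^[k] x) g = 0 with hP
  have hk : ∀ i, ∃ k, 0 < k ∧ (P i → ∀ x : Fin (N + 1) → K,
      (∀ g ∈ S i, aeval x g = 0) → ∀ g ∈ S i, aeval ((stepR f)^[k] x) g = 0) := by
    intro i
    by_cases h : P i
    · obtain ⟨k, hk, h1⟩ := h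
      exact ⟨k, hk, fun _ => h1⟩
    · exact ⟨1, one_pos, fun h' => absurd h' h⟩
  choose k hk0 hk1 using hk
  have hE : ∀ i, ∃ C : ℕ, (¬ P i → ∀ k, 0 < k → ∃ W : Finset (Fin (N + 1) → K),
      W.card ≤ (N + 1) * (C * d ^ k) ^ (N + 1) ∧
      ∀ x : Fin (N + 1) → K, x ≠ 0 → (∀ g ∈ S i, aeval x g = 0) →
      (∀ g ∈ S i, aeval ((stepR f)^[k] x) g = 0) → ∃ c : K, c ≠ 0 ∧ c • x ∈ W) := by
    intro i
    rcases hdich i with h | ⟨C, h⟩
    · exact ⟨0, fun h' => absurd h h'⟩
    · exact ⟨C, fun _ => h⟩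
  choose E hE1 using hE
  set E0 : ℕ := ∑ i, E i with hE0
  set C1 : ℝ := (N + 1) * (E0 : ℝ) ^ (N + 1) with hC1
  set D : ℝ := (d : ℝ) ^ (N + 1) with hD
  have hd1 : (1 : ℝ) ≤ d := by exact_mod_cast (show 1 ≤ d by omega)
  have hD1 : 1 ≤ D := one_le_pow₀ hd1
  set C2 : ℝ := 4 * Real.log (2 * D) + 2 * (1 + C1) with hC2
  refine ⟨∏ i, k i, s * C2, Finset.prod_pos fun i _ => hk0 i, fun a hinf => ?_⟩
  have hne : ∀ n, (stepR f)^[n] a ≠ 0 := by
    intro n h0
    have h1 := hinf n (n + 1) (by omega) 0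
    rw [zero_smul] at h1
    apply h1
    rw [Function.iterate_succ_apply', h0]
    -- the forms vanish at zero
    funext i
    simp only [stepR, Pi.zero_apply]
    have h2 := aeval_scale (f i) d (hf i) (0 : K) (0 : Fin (N + 1) → K)
    have h3 : (fun l => (0 : K) * (0 : Fin (N + 1) → K) l) = 0 := by
      funext l
      simp
    rw [h3, zero_pow (by omega), zero_mul] at h2
    exact h2
  have hretS : ∀ n, n ∈ ret f V a ↔ ∃ i, ∀ g ∈ S i, aeval ((stepR f)^[n] a) g = 0 := fun n =>
    hS4 _
  set B : Fin s → Set ℕ := fun i => {n | ¬ P i ∧ ∀ g ∈ S i, aeval ((stepR f)^[n] a) g = 0} with hB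
  refine ⟨{n | ∃ i, P i ∧ ∀ g ∈ S i, aeval ((stepR f)^[n] a) g = 0}, ⋃ i, B i, ?_, ?_, ?_⟩
  · ext n
    rw [hretS]
    constructor
    · rintro ⟨i, hi⟩
      by_cases h : P i
      · exact Or.inl ⟨i, h, hi⟩
      · right
        rw [Set.mem_iUnion]
        exact ⟨i, h, hi⟩
    · rintro (⟨i, _, hi⟩ | hn)
      · exact ⟨i, hi⟩
      · rw [Set.mem_iUnion] at hn
        obtain ⟨i, _, hi⟩ := hn
        exact ⟨i, hi⟩
  · rintro n ⟨i, hPi, hi⟩
    refine ⟨i, hPi, ?_⟩
    obtain ⟨u, hu⟩ : k i ∣ ∏ i, k i := Finset.dvd_prod_of_mem k (Finset.mem_univ i)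
    have h1 : ∀ w : ℕ, ∀ g ∈ S i, aeval ((stepR f)^[n + w * k i] a) g = 0 := by
      intro w
      induction w with
      | zero => simpa using hi
      | succ w ih =>
        have h2 := hk1 i hPi _ ih
        have h3 : k i + (n + w * k i) = n + (w + 1) * k i := by ring
        rwa [← Function.iterate_add_apply, h3] at h2
    have h2 := h1 u
    rwa [Nat.mul_comm, ← hu] at h2
  · intro M n hn
    have hfin : ∀ i, (B i ∩ Set.Ico M (M + n)).Finite := fun i =>
      (Set.finite_Ico M (M + n)).subset Set.inter_subset_right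
    have hone : ∀ i, ((B i ∩ Set.Ico M (M + n)).ncard : ℝ) ≤ C2 * (n / Real.log n) := by
      intro i
      apply density (by positivity) hD1 (B i) _ M n hn
      intro k hk T hT
      rcases T.eq_empty_or_nonempty with rfl | ⟨m₁, hm₁⟩
      · rw [Finset.card_empty, Nat.cast_zero]
        positivity
      · have hPi : ¬ P i := (hT m₁ hm₁).1.1
        obtain ⟨W, hW, hWm⟩ := hE1 i hPi k hk
        have h1 : ∀ m ∈ T, ∃ c : K, c ≠ 0 ∧ c • (stepR f)^[m] a ∈ W := by
          intro m hm
          apply hWm _ (hne m) (hT m hm).1.2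
          intro g hg
          rw [← Function.iterate_add_apply, Nat.add_comm k m]
          exact (hT m hm).2.2 g hg
        choose! c hc hcW using h1
        have h2 : T.card ≤ W.card := by
          apply Finset.card_le_card_of_injOn (fun m => c m • (stepR f)^[m] a) hcW
          have key : ∀ m ∈ T, ∀ m' ∈ T, m < m' →
              c m • (stepR f)^[m] a ≠ c m' • (stepR f)^[m'] a := by
            intro m hm m' hm' hmm heq
            apply hinf m m' hmm ((c m')⁻¹ * c m)
            rw [mul_smul, heq, smul_smul, inv_mul_cancel₀ (hc m' hm'), one_smul]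
          intro m hm m' hm' heq
          rcases lt_trichotomy m m' with h3 | h3 | h3
          · exact absurd heq (key m hm m' hm' h3)
          · exact h3
          · exact absurd heq.symm (key m' hm' m hm h3)
        have h3 : E i ≤ E0 := Finset.single_le_sum (f := E) (fun _ _ => Nat.zero_le _)
          (Finset.mem_univ _)
        have h4 : T.card ≤ (N + 1) * (E0 * d ^ k) ^ (N + 1) := by
          refine (h2.trans hW).trans (Nat.mul_le_mul_left _ (Nat.pow_le_pow_left ?_ _))
          exact Nat.mul_le_mul_right _ h3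
        calc (T.card : ℝ) ≤ (((N + 1) * (E0 * d ^ k) ^ (N + 1) : ℕ) : ℝ) := by exact_mod_cast h4
          _ = C1 * D ^ k := by
            rw [hC1, hD]
            push_cast
            rw [mul_pow, ← pow_mul, ← pow_mul, Nat.mul_comm k]
            ring
    have hsub : ((⋃ i, B i) ∩ Set.Ico M (M + n)) ⊆
        ((Finset.univ.biUnion fun i => (hfin i).toFinset : Finset ℕ) : Set ℕ) := by
      rintro x ⟨hx, hx'⟩
      obtain ⟨i, hi⟩ := Set.mem_iUnion.1 hx
      rw [Finset.mem_coe, Finset.mem_biUnion]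
      exact ⟨i, Finset.mem_univ _, (Set.Finite.mem_toFinset _).2 ⟨hi, hx'⟩⟩
    have h2 := Set.ncard_le_ncard hsub (Finset.finite_toSet _)
    rw [Set.ncard_coe_finset] at h2
    have h3 : (Finset.univ.biUnion fun i => (hfin i).toFinset).card ≤
        ∑ i : Fin s, (hfin i).toFinset.card := Finset.card_biUnion_le
    calc (((⋃ i, B i) ∩ Set.Ico M (M + n)).ncard : ℝ) ≤
          ((∑ i : Fin s, (hfin i).toFinset.card : ℕ) : ℝ) := by exact_mod_cast h2.trans h3
      _ = ∑ i : Fin s, ((hfin i).toFinset.card : ℝ) := by push_cast; rfl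
      _ ≤ ∑ _i : Fin s, C2 * (n / Real.log n) := by
          apply Finset.sum_le_sum
          intro i _
          rw [← Set.ncard_eq_toFinset_card _ (hfin i)]
          exact hone i
      _ = s * C2 * (n / Real.log n) := by
          rw [Finset.sum_const, Finset.card_univ, Fintype.card_fin, nsmul_eq_mul]
          ring

end ret

end Pool.Agent.T2H39.UG
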