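import Pool.Agent.R847.HG.Curve

set_option autoImplicit false

/-! Degrees of the eliminating polynomials, and the number of the points of a curve whose images under
the `k`-th iterate lie on the curve again. -/

namespace Pool.Agent.T2H39.UG

open MvPolynomial Pool.Agent.R847.HG

variable {K : Type} [Field K]

/-- The number of zeros of a binary form. -/
lemma root_set [Infinite K] (R : MvPolynomial (Fin 2) K) (hR : R ≠ 0) :
    ∃ T : Finset K, T.card ≤ R.totalDegree ∧
      ∀ x y : K, x ≠ 0 → (∀ t : K, eval ![t * x, t * y] R = 0) → y / x ∈ T := by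
  classical
  obtain ⟨m, hm, hmR⟩ : ∃ m, m ≤ R.totalDegree ∧ homogeneousComponent m R ≠ 0 := by
    by_contra hcon
    push Not at hcon
    apply hR
    rw [← sum_homogeneousComponent R]
    apply Finset.sum_eq_zero
    intro i hi
    exact hcon i (by rw [Finset.mem_range] at hi; omega)
  set Rm := homogeneousComponent m R with hRm
  have hhom : Rm.IsHomogeneous m := homogeneousComponent_isHomogeneous m R
  set P : Polynomial K := aeval (![1, Polynomial.X] : Fin 2 → Polynomial K) Rm with hP
  have hPev : ∀ t, P.eval t = eval ![1, t] Rm := by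
    intro t
    rw [hP, ← Polynomial.coe_aeval_eq_eval]
    change (Polynomial.aeval t) (aeval ![1, Polynomial.X] Rm) = _
    rw [comp_aeval_apply]
    have h1 : (fun i => (Polynomial.aeval t) ((![1, Polynomial.X] : Fin 2 → Polynomial K) i)) =
        ![1, t] := by
      funext i
      fin_cases i <;> simp
    rw [h1]
    rfl
  have hscale : ∀ x y : K, x ≠ 0 → eval ![x, y] Rm = x ^ m * P.eval (y / x) := by
    intro x y hx
    rw [hPev]
    have h1 := aeval_scale Rm m hhom x (![1, y / x] : Fin 2 → K)
    have h2 : (fun l => x * (![1, y / x] : Fin 2 → K) l) = ![x, y] := by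
      funext i
      fin_cases i
      · simp
      · simp [mul_div_cancel₀ y hx]
    rw [h2] at h1
    exact h1
  have hP0 : P ≠ 0 := by
    intro h
    have h1 : Rm * X 0 = 0 := by
      apply MvPolynomial.funext
      intro z
      rw [map_mul, eval_X, map_zero]
      by_cases hz : z 0 = 0
      · rw [hz, mul_zero]
      · have h2 := hscale (z 0) (z 1) hz
        rw [h, Polynomial.eval_zero, mul_zero] at h2
        have h3 : (![z 0, z 1] : Fin 2 → K) = z := by
          funext i
          fin_cases i <;> rfl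
        rw [h3] at h2
        rw [h2, zero_mul]
    rcases mul_eq_zero.1 h1 with h2 | h2
    · exact hmR h2
    · exact X_ne_zero 0 h2
  refine ⟨P.roots.toFinset, ?_, fun x y hx h => ?_⟩
  · refine (Multiset.toFinset_card_le _).trans ((Polynomial.card_roots' P).trans ?_)
    have h1 : P.natDegree ≤ m * 1 := by
      apply aeval_natDegree_le
      · exact hhom.totalDegree_le
      · intro i
        fin_cases i <;> simp
    omega
  · rw [Multiset.mem_toFinset, Polynomial.mem_roots hP0, Polynomial.IsRoot.def]
    have h1 := eval_component R x y h m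
    rw [← hRm, hscale x y hx] at h1
    exact (mul_eq_zero.1 h1).resolve_left (pow_ne_zero _ hx)

section deg

variable {A : Type} [CommRing A] [IsDomain A] [Algebra K A] {e : ℕ} {y : Fin 2 → A} {ω : Fin e → A}

/-- The system of bounds for the degrees of the matrices. -/
def degSys (hind : Ind K y ω) (D : Set K) (M T : ℕ) : BSys K (repAlg K y ω) D M where
  B := fun b j => ∀ m m', (mu b m m').totalDegree ≤ T * j
  mono := fun a i j hij h m m' => (h m m').trans (Nat.mul_le_mul_left _ hij)
  mul := fun a b i j ha hb m m' => by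
    rw [mu_mul hind, Matrix.mul_apply]
    apply totalDegree_finsetSum_le
    intro m'' _
    refine (totalDegree_mul _ _).trans ?_
    have h1 := hb m m''
    have h2 := ha m'' m'
    have h3 : T * (i + j + 2) = T * i + T * j + T * 2 := by ring
    omega
  sum := fun s f j hs h m m' => by
    rw [mu_sum hind, Matrix.sum_apply]
    apply totalDegree_finsetSum_le
    intro i hi
    refine (h i hi m m').trans ?_
    exact Nat.mul_le_mul_left _ (by omega)
  neg := fun a j h m m' => by
    have h1 : mu (-a) = - mu a := by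
      have h2 := mu_add (K := K) hind a (-a)
      have h3 : mu (0 : repAlg K y ω) = 0 := by
        have h4 := mu_add (K := K) hind (0 : repAlg K y ω) 0
        rw [add_zero] at h4
        exact left_eq_add.1 h4
      rw [add_neg_cancel, h3] at h2
      exact (neg_eq_of_add_eq_zero_right h2.symm).symm
    rw [h1, Matrix.neg_apply, totalDegree_neg]
    exact h m m'
  coef := fun a ha m m' => by
    rw [mu_algebraMap hind, Matrix.diagonal_apply]
    split_ifs
    · rw [totalDegree_C]
      exact Nat.zero_le _
    · rw [totalDegree_zero]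
      exact Nat.zero_le _
  one := fun m m' => by
    rw [← map_one (algebraMap K (repAlg K y ω)), mu_algebraMap hind, Matrix.diagonal_apply]
    split_ifs
    · rw [totalDegree_C]
      exact Nat.zero_le _
    · rw [totalDegree_zero]
      exact Nat.zero_le _

/-- The degrees of the eliminating polynomials. -/
theorem exists_elim_deg (hy : AlgebraicIndependent K y) (hind : Ind K y ω) (m₀ : Fin e)
    (hm₀ : ω m₀ = 1) {σ : Type} [Fintype σ] (x : σ → A) (s : MvPolynomial (Fin 2) K) (hs : s ≠ 0)
    (Nm : σ → Fin e → Fin e → MvPolynomial (Fin 2) K)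
    (hN : ∀ l m, aeval y s * x l * ω m = ∑ m', aeval y (Nm l m m') * ω m')
    (F : σ → MvPolynomial σ K) (d : ℕ) (hd : 2 ≤ d) (hF : ∀ l, (F l).IsHomogeneous d)
    (G : MvPolynomial σ K) (dg : ℕ) (hG : G.IsHomogeneous dg) :
    ∃ q : ℕ, ∀ k, aeval ((stepR F)^[k] x) G ≠ 0 →
      ∃ R : MvPolynomial (Fin 2) K, R ≠ 0 ∧ R.totalDegree ≤ q * d ^ k ∧
        (∀ ev : A →ₐ[K] K, ev (aeval ((stepR F)^[k] x) G) = 0 → eval (fun i => ev (y i)) R = 0) := by
  classical
  let D : Set K := Set.univ
  let M : ℕ := e + e.factorial + G.support.card + ∑ l, (F l).support.card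
  have hMe' : e.factorial ≤ M := by simp only [M]; omega
  have hMG : G.support.card ≤ M := by simp only [M]; omega
  have hMF : ∀ l, (F l).support.card ≤ M := by
    intro l
    have := Finset.single_le_sum (f := fun l => (F l).support.card) (fun _ _ => Nat.zero_le _)
      (Finset.mem_univ l)
    simp only [M]
    omega
  let T : ℕ := ∑ l, ∑ m, ∑ m', (Nm l m m').totalDegree
  have hT : ∀ l m m', (Nm l m m').totalDegree ≤ T := by
    intro l m m'
    have h1 := Finset.single_le_sum (f := fun m' => (Nm l m m').totalDegree)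
      (fun _ _ => Nat.zero_le _) (Finset.mem_univ m')
    have h2 := Finset.single_le_sum (f := fun m => ∑ m', (Nm l m m').totalDegree)
      (fun _ _ => Nat.zero_le _) (Finset.mem_univ m)
    have h3 := Finset.single_le_sum (f := fun l => ∑ m, ∑ m', (Nm l m m').totalDegree)
      (fun _ _ => Nat.zero_le _) (Finset.mem_univ l)
    simp only [T]
    omega
  refine ⟨T * (e * (dg * (9 + 2) + 4 + 2) + 1), fun k hne => ?_⟩
  -- the scaled coordinates
  let u : σ → repAlg K y ω := fun l => ⟨aeval y s * x l, Matrix.of (Nm l), hN l⟩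
  have hu : ∀ l, mu (u l) = Matrix.of (Nm l) := fun l =>
    (mu_spec (u l)).unique hind (hN l)
  let b : repAlg K y ω := aeval ((stepR F)^[k] u) G
  have hb : (b : A) = (aeval y s ^ d ^ k) ^ dg * aeval ((stepR F)^[k] x) G := by
    have h1 : (b : A) = aeval ((stepR F)^[k] fun l => aeval y s * x l) G := by
      have h2 := stepR_map F (repAlg K y ω).val u k
      have h3 : (b : A) = (repAlg K y ω).val (aeval ((stepR F)^[k] u) G) := rfl
      rw [h3, comp_aeval_apply]
      have h4 : (fun i => (repAlg K y ω).val ((stepR F)^[k] u i)) =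
          (stepR F)^[k] fun l => aeval y s * x l := h2.symm
      rw [h4]
    rw [h1, stepR_scale F d hF, aeval_scale G dg hG]
  have hbne : (b : A) ≠ 0 := by
    rw [hb]
    refine mul_ne_zero (pow_ne_zero _ (pow_ne_zero _ ?_)) hne
    intro h0
    exact hs (hy (h0.trans (map_zero _).symm))
  refine ⟨(mu b).det, ?_, ?_, ?_⟩
  · intro hdet
    obtain ⟨c, hc, hc0⟩ := Matrix.exists_vecMul_eq_zero_iff.2 hdet
    apply hc
    funext m
    refine hind c ?_ m
    have h1 : (b : A) * ∑ m, aeval y (c m) * ω m = 0 := by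
      rw [Finset.mul_sum]
      have h2 : ∀ m, (b : A) * (aeval y (c m) * ω m) =
          ∑ m', aeval y (c m * mu b m m') * ω m' := by
        intro m
        rw [mul_left_comm, mu_spec b m, Finset.mul_sum]
        apply Finset.sum_congr rfl
        intro m' _
        rw [map_mul, mul_assoc]
      rw [Finset.sum_congr rfl fun m _ => h2 m, Finset.sum_comm]
      apply Finset.sum_eq_zero
      intro m' _
      rw [← Finset.sum_mul, ← map_sum]
      have h3 := congrFun hc0 m'
      simp only [Matrix.vecMul, dotProduct, Pi.zero_apply] at h3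
      rw [h3, map_zero, zero_mul]
    exact (mul_eq_zero.1 h1).resolve_left hbne
  · have h1 : ∀ l, (degSys hind D M T).B (u l) 1 := by
      intro l m m'
      rw [hu l, Matrix.of_apply, mul_one]
      exact hT l m m'
    have h2 := (degSys hind D M T).iterate F d hd hF (fun _ _ _ => trivial) hMF u 1 h1 k
    have h3 := (degSys hind D M T).eval G dg hG (fun _ _ => trivial) hMG _ _ h2
    have h4 : ∀ m m', (mu b m m').totalDegree ≤ T * (dg * ((1 + 8) * d ^ k - 8 + 2) + 4) := h3
    have h5 : (mu b).det.totalDegree ≤ ∑ _m : Fin e, T * (dg * ((1 + 8) * d ^ k - 8 + 2) + 4) := by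
      rw [Matrix.det_apply]
      apply totalDegree_finsetSum_le
      intro τ _
      have h6 : (∏ i, mu b (τ i) i).totalDegree ≤
          ∑ _m : Fin e, T * (dg * ((1 + 8) * d ^ k - 8 + 2) + 4) := by
        refine (totalDegree_finsetProd _ _).trans ?_
        exact Finset.sum_le_sum fun i _ => h4 _ _
      rcases Int.units_eq_one_or (Equiv.Perm.sign τ) with h7 | h7
      · rw [h7, one_smul]; exact h6
      · rw [h7, Units.neg_smul, one_smul, totalDegree_neg]
        exact h6
    refine h5.trans ?_
    rw [Finset.sum_const, Finset.card_univ, Fintype.card_fin, smul_eq_mul]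
    have hdk : 1 ≤ d ^ k := Nat.one_le_pow _ _ (by omega)
    have h8 : dg * ((1 + 8) * d ^ k - 8 + 2) + 4 ≤ (dg * (9 + 2) + 4 + 2) * d ^ k := by
      have h9 : (1 + 8) * d ^ k - 8 + 2 ≤ (9 + 2) * d ^ k := by omega
      calc dg * ((1 + 8) * d ^ k - 8 + 2) + 4 ≤ dg * ((9 + 2) * d ^ k) + (4 + 2) * d ^ k := by
            apply Nat.add_le_add (Nat.mul_le_mul_left _ h9)
            omega
        _ = (dg * (9 + 2) + 4 + 2) * d ^ k := by ring
    calc e * (T * (dg * ((1 + 8) * d ^ k - 8 + 2) + 4)) ≤
          e * (T * ((dg * (9 + 2) + 4 + 2) * d ^ k)) :=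
          Nat.mul_le_mul_left _ (Nat.mul_le_mul_left _ h8)
      _ = T * (e * (dg * (9 + 2) + 4 + 2)) * d ^ k := by ring
      _ ≤ T * (e * (dg * (9 + 2) + 4 + 2) + 1) * d ^ k := by
          apply Nat.mul_le_mul_right
          apply Nat.mul_le_mul_left
          omega
  · intro ev hev
    have h1 : ev (b : A) = 0 := by
      rw [hb, map_mul, hev, mul_zero]
    have h2 : eval (fun i => ev (y i)) (mu b).det =
        ((eval (fun i => ev (y i))).mapMatrix (mu b)).det := RingHom.map_det _ _
    rw [h2, ← Matrix.exists_mulVec_eq_zero_iff]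
    refine ⟨fun m => ev (ω m), ?_, ?_⟩
    · intro h3
      have h4 := congrFun h3 m₀
      simp only [hm₀, map_one, Pi.zero_apply] at h4
      exact one_ne_zero h4
    · funext m
      simp only [Matrix.mulVec, dotProduct, RingHom.mapMatrix_apply, Matrix.map_apply, Pi.zero_apply]
      have h3 := congrArg ev (mu_spec b m)
      rw [map_mul, h1, zero_mul, map_sum] at h3
      rw [h3]
      apply Finset.sum_congr rfl
      intro m' _
      rw [map_mul]
      congr 1
      rw [comp_aeval_apply, ← coe_aeval_eq_eval]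
      rfl

end deg

/-- The number of the values of the ratio of two coordinates. -/
theorem pair_count [Infinite K] {σ : Type} [Fintype σ]
    (S : Set (MvPolynomial σ K)) (hS : ∀ g ∈ S, ∃ e : ℕ, g.IsHomogeneous e)
    [hprime : (Ideal.span S).IsPrime]
    (htr : Algebra.trdeg K (MvPolynomial σ K ⧸ Ideal.span S) ≤ 2)
    (F : σ → MvPolynomial σ K) (d : ℕ) (hd : 2 ≤ d) (hF : ∀ l, (F l).IsHomogeneous d)
    (G : MvPolynomial σ K) (dg : ℕ) (hG : G.IsHomogeneous dg) (i j : σ) :
    ∃ C : ℕ, ∀ k : ℕ, aeval ((stepR F)^[k] fun l => Ideal.Quotient.mk (Ideal.span S) (X l)) G ≠ 0 →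
      ∃ T : Finset K, T.card ≤ C * d ^ k ∧
      ∀ x : σ → K, (∀ g ∈ S, aeval x g = 0) → x i ≠ 0 →
      aeval ((stepR F)^[k] x) G = 0 → x j / x i ∈ T := by
  classical
  set A := MvPolynomial σ K ⧸ Ideal.span S with hA
  let xb : σ → A := fun l => Ideal.Quotient.mk (Ideal.span S) (X l)
  let y : Fin 2 → A := ![xb i, xb j]
  have hdk : ∀ k, 1 ≤ d ^ k := fun k => Nat.one_le_pow _ _ (by omega)
  -- scaling of the points
  have hsc : ∀ (x : σ → K), (∀ g ∈ S, aeval x g = 0) → ∀ t : K,
      ∀ g ∈ S, aeval (fun l => t * x l) g = 0 := by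
    intro x hx t g hg
    obtain ⟨e, he⟩ := hS g hg
    rw [aeval_scale g e he, hx g hg, mul_zero]
  by_cases hy : AlgebraicIndependent K y
  · obtain ⟨e, ω, m₀, s, Nm, hs, hm₀, hind, hN⟩ := exists_basis xb y hy fun l =>
      alg_of_trdeg htr y (xb l)
    obtain ⟨q, hel⟩ := exists_elim_deg (ω := ω) hy hind m₀ hm₀ xb s hs Nm hN F d hd hF G dg hG
    refine ⟨q, fun k hne => ?_⟩
    obtain ⟨R, hR0, hRd, hRev⟩ := hel k hne
    obtain ⟨T, hT, hTr⟩ := root_set R hR0
    refine ⟨T, hT.trans hRd, fun x hx hxi hzero => ?_⟩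
    apply hTr (x i) (x j) hxi
    intro t
    obtain ⟨ev, hev⟩ := exists_ev S (fun l => t * x l) (hsc x hx t)
    have h2 : (fun a => ev (y a)) = ![t * x i, t * x j] := by
      funext a
      fin_cases a
      · exact hev i
      · exact hev j
    rw [← h2]
    apply hRev
    rw [comp_aeval_apply, ← stepR_map F ev xb k]
    have h3 : (fun l => ev (xb l)) = fun l => t * x l := funext hev
    rw [h3, stepR_scale F d hF, aeval_scale G dg hG, hzero, mul_zero]
  · rw [algebraicIndependent_iff] at hy
    push Not at hy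
    obtain ⟨Q₀, hQ₀, hQ₀0⟩ := hy
    obtain ⟨T, hT, hTr⟩ := root_set Q₀ hQ₀0
    refine ⟨Q₀.totalDegree, fun k hne => ⟨T, hT.trans (Nat.le_mul_of_pos_right _ (by
      have := hdk k; omega)), fun x hx hxi hzero => ?_⟩⟩
    apply hTr (x i) (x j) hxi
    intro t
    obtain ⟨ev, hev⟩ := exists_ev S (fun l => t * x l) (hsc x hx t)
    have h2 : (fun a => ev (y a)) = ![t * x i, t * x j] := by
      funext a
      fin_cases a
      · exact hev i
      · exact hev j
    have h3 := congrArg ev hQ₀
    rw [comp_aeval_apply, h2, map_zero] at h3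
    rw [← coe_aeval_eq_eval]
    exact h3

end Pool.Agent.T2H39.UG
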