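import Pool.Agent.R847.HG.Curve

set_option autoImplicit false

/-! The heights of the points of a curve whose images lie on the curve again, and uniform lower
bounds for the heights along orbits. -/

namespace Pool.Agent.T2H39.UG

open MvPolynomial Height AdmissibleAbsValues Pool.Agent.R847.HG

variable {K : Type} [Field K]

/-- Either the curve is mapped to itself by an iterate, or the points `x` of the curve with
`f^k(x)` on the curve have height at most `C d^k`. -/
theorem dichotomy [AdmissibleAbsValues K] [Infinite K] {N d : ℕ}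
    (hd : 2 ≤ d) (f : Fin (N + 1) → MvPolynomial (Fin (N + 1)) K)
    (hf : ∀ i, (f i).IsHomogeneous d)
    (S : Set (MvPolynomial (Fin (N + 1)) K)) (hS : ∀ g ∈ S, ∃ e : ℕ, g.IsHomogeneous e)
    (hprime : (Ideal.span S).IsPrime)
    (htr : Algebra.trdeg K (MvPolynomial (Fin (N + 1)) K ⧸ Ideal.span S) ≤ 2) :
    (∃ k, 0 < k ∧ ∀ x : Fin (N + 1) → K, (∀ g ∈ S, aeval x g = 0) →
      ∀ g ∈ S, aeval ((stepR f)^[k] x) g = 0) ∨
    ∃ C : ℝ, 0 ≤ C ∧ ∀ k, 0 < k → ∀ x : Fin (N + 1) → K, x ≠ 0 → (∀ g ∈ S, aeval x g = 0) →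
      (∀ g ∈ S, aeval ((stepR f)^[k] x) g = 0) → logHeight x ≤ C * d ^ k := by
  classical
  set xb : Fin (N + 1) → MvPolynomial (Fin (N + 1)) K ⧸ Ideal.span S :=
    fun l => Ideal.Quotient.mk (Ideal.span S) (X l) with hxb
  by_cases hA : ∃ k, 0 < k ∧ ∀ g ∈ S, aeval ((stepR f)^[k] xb) g = 0
  · left
    obtain ⟨k, hk, hA⟩ := hA
    refine ⟨k, hk, fun x hx g hg => ?_⟩
    obtain ⟨ev, hev⟩ := exists_ev S x hx
    have h1 := congrArg ev (hA g hg)
    rw [comp_aeval_apply, ← stepR_map f ev xb k, map_zero] at h1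
    have h2 : (fun l => ev (xb l)) = x := funext hev
    rw [h2] at h1
    exact h1
  · right
    push Not at hA
    -- finitely many generators
    have hfg : (Ideal.span S).FG := IsNoetherian.noetherian _
    obtain ⟨S₀, hS₀S, hS₀⟩ := (Submodule.fg_span_iff_fg_span_finset_subset S).1 hfg
    have hA' : ∀ k, 0 < k → ∃ g ∈ S₀, aeval ((stepR f)^[k] xb) g ≠ 0 := by
      intro k hk
      by_contra hcon
      push Not at hcon
      obtain ⟨g, hg, hgne⟩ := hA k hk
      apply hgne
      have h1 : g ∈ Ideal.span (S₀ : Set (MvPolynomial (Fin (N + 1)) K)) := by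
        have : g ∈ Submodule.span (MvPolynomial (Fin (N + 1)) K) S := Submodule.subset_span hg
        rw [hS₀] at this
        exact this
      have h2 : Ideal.span (S₀ : Set (MvPolynomial (Fin (N + 1)) K)) ≤
          RingHom.ker (aeval ((stepR f)^[k] xb) : MvPolynomial (Fin (N + 1)) K →ₐ[K] _) := by
        rw [Ideal.span_le]
        intro g hg
        exact hcon g hg
      exact h2 h1
    -- constants
    have hconst : ∀ q : (Fin (N + 1) × Fin (N + 1)) × S₀, ∃ C : ℝ, 1 ≤ C ∧
        ∀ (k : ℕ) (x : Fin (N + 1) → K), (∀ g ∈ S, aeval x g = 0) → x q.1.1 ≠ 0 →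
          aeval ((stepR f)^[k] xb) (q.2 : MvPolynomial (Fin (N + 1)) K) ≠ 0 →
          aeval ((stepR f)^[k] x) (q.2 : MvPolynomial (Fin (N + 1)) K) = 0 →
          mulHeight₁ (x q.1.2 / x q.1.1) ≤ C ^ (d ^ k) := by
      rintro ⟨⟨i, j⟩, ⟨g, hg⟩⟩
      obtain ⟨e, he⟩ := hS g (hS₀S hg)
      exact pair_bound S hS htr f d hd hf g e he i j
    choose Cq hCq1 hCq using hconst
    set C : ℝ := ∏ q, Cq q with hC
    have hCq0 : ∀ q, 0 ≤ Cq q := fun q => zero_le_one.trans (hCq1 q)
    have hC1 : 1 ≤ C := one_le_prod' _ _ hCq1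
    have hCle : ∀ q, Cq q ≤ C := by
      intro q
      calc Cq q = Cq q * 1 := (mul_one _).symm
        _ ≤ Cq q * ∏ q' ∈ Finset.univ.erase q, Cq q' :=
          mul_le_mul_of_nonneg_left (one_le_prod' _ _ hCq1) (hCq0 q)
        _ = C := Finset.mul_prod_erase _ _ (Finset.mem_univ q)
    have hlogC : 0 ≤ Real.log C := Real.log_nonneg hC1
    refine ⟨(N + 1) * Real.log C, by positivity, fun k hk x hx0 hx hxk => ?_⟩
    obtain ⟨g, hg, hgne⟩ := hA' k hk
    obtain ⟨i, hi⟩ := Function.ne_iff.1 hx0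
    rw [Pi.zero_apply] at hi
    have h1 : ∀ j, mulHeight₁ (x j / x i) ≤ C ^ (d ^ k) := by
      intro j
      refine (hCq ((i, j), ⟨g, hg⟩) k x hx hi hgne ?_).trans ?_
      · exact hxk g (hS₀S hg)
      · exact pow_le_pow_left₀ (hCq0 _) (hCle _) _
    have h2 : mulHeight x ≤ (C ^ (d ^ k)) ^ (N + 1) := by
      refine (height_le_prod _ i hi).trans ?_
      calc ∏ j, mulHeight₁ (x j / x i)
          ≤ ∏ _j : Fin (N + 1), C ^ (d ^ k) :=
            Finset.prod_le_prod (fun j _ => mulHeight₁_nonneg _) fun j _ => h1 j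
        _ = _ := by rw [Finset.prod_const, Finset.card_univ, Fintype.card_fin]
    rw [logHeight_eq_log_mulHeight]
    refine (Real.log_le_log (mulHeight_pos _) h2).trans ?_
    rw [Real.log_pow, Real.log_pow]
    push_cast
    apply le_of_eq
    ring

/-- A bounded piece of an orbit contains a repetition. -/
lemma repetition [AdmissibleAbsValues K] [Northcott (mulHeight₁ (K := K))] {N : ℕ} (B : ℝ) :
    ∃ n₁ : ℕ, ∀ x : ℕ → Fin (N + 1) → K, (∀ n, x n ≠ 0) → (∀ n ≤ n₁, mulHeight (x n) ≤ B) →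
      ∃ m n, m < n ∧ n ≤ n₁ ∧ ∃ c : K, c ≠ 0 ∧ x n = c • x m := by
  classical
  have hfin : {z : K | mulHeight₁ z ≤ B}.Finite := Northcott.finite_le B
  have : Finite {z : K | mulHeight₁ z ≤ B} := hfin
  refine ⟨Nat.card (Fin (N + 1) → {z : K | mulHeight₁ z ≤ B}), fun x hx hB => ?_⟩
  set n₁ := Nat.card (Fin (N + 1) → {z : K | mulHeight₁ z ≤ B}) with hn₁
  have hnz : ∀ n, ∃ i, x n i ≠ 0 := fun n => Function.ne_iff.1 (hx n)
  choose i hi using hnz
  let g : Fin (n₁ + 1) → Fin (N + 1) → {z : K | mulHeight₁ z ≤ B} := fun n j =>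
    ⟨x n j / x n (i n), (ratio_le (x n) (i n) j).trans (hB n (by omega))⟩
  have hni : ¬ Function.Injective g := by
    intro hinj
    have h1 := Nat.card_le_card_of_injective g hinj
    rw [Nat.card_fin, ← hn₁] at h1
    omega
  rw [Function.Injective] at hni
  push Not at hni
  obtain ⟨p, q, hg, hpq⟩ := hni
  obtain ⟨m, n, hmn, hg⟩ : ∃ m n : Fin (n₁ + 1), m < n ∧ g m = g n := by
    rcases lt_or_gt_of_ne hpq with h1 | h1
    · exact ⟨p, q, h1, hg⟩
    · exact ⟨q, p, h1, hg.symm⟩
  refine ⟨m, n, hmn, by omega, x n (i n) / x m (i m), div_ne_zero (hi n) (hi m), ?_⟩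
  funext j
  have h1 := congrArg (fun z : {z : K | mulHeight₁ z ≤ B} => (z : K)) (congrFun hg j)
  simp only [g] at h1
  rw [Pi.smul_apply, smul_eq_mul]
  have h2 := hi n
  have h3 := hi m
  field_simp at h1 ⊢
  linear_combination -h1

/-- **Uniform growth of the heights along the orbits.** -/
theorem uniform_growth [AdmissibleAbsValues K] [Northcott (mulHeight₁ (K := K))] {N d : ℕ}
    (hd : 2 ≤ d)
    (f : Fin (N + 1) → MvPolynomial (Fin (N + 1)) K) (hf : ∀ i, (f i).IsHomogeneous d)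
    (h0 : ∀ x : Fin (N + 1) → AlgebraicClosure K, (∀ i, aeval x (f i) = 0) → x = 0) :
    ∃ (n₁ : ℕ) (c R : ℝ), 0 < c ∧ 1 ≤ R ∧ ∀ a : Fin (N + 1) → K, a ≠ 0 →
      (logHeight a ≤ R ∧ ∃ m n, m < n ∧ n ≤ n₁ ∧
        ∃ c' : K, c' ≠ 0 ∧ (stepR f)^[n] a = c' • (stepR f)^[m] a) ∨
      ∀ n, (R < logHeight a ∨ n₁ ≤ n) →
        c * d ^ n * max 1 (logHeight a) ≤ logHeight ((stepR f)^[n] a) := by
  obtain ⟨C, hC⟩ := exists_lower f hf h0
  have hdR : (2 : ℝ) ≤ d := by exact_mod_cast hd
  have hC0 : 0 ≤ |C| := abs_nonneg C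
  have hgrow : ∀ (x : Fin (N + 1) → K) (m : ℕ),
      (logHeight x - |C|) * d ^ m ≤ logHeight ((stepR f)^[m] x) - |C| := by
    intro x m
    induction m with
    | zero => simp
    | succ m ih =>
      have h1 := hC ((stepR f)^[m] x)
      rw [← Function.iterate_succ_apply' (stepR f) m x] at h1
      have h2 : -|C| ≤ C := neg_abs_le C
      have h4 : (logHeight x - |C|) * d ^ (m + 1) ≤ (logHeight ((stepR f)^[m] x) - |C|) * d := by
        rw [pow_succ, ← mul_assoc]
        exact mul_le_mul_of_nonneg_right ih (by linarith)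
      nlinarith
  obtain ⟨n₁, hn₁⟩ := repetition (K := K) (N := N) (Real.exp (2 * |C| + 1))
  set R : ℝ := 2 * |C| + 1 with hR
  have hR1 : 1 ≤ R := by linarith
  have hdn : ∀ n : ℕ, (0 : ℝ) < d ^ n := fun n => by positivity
  refine ⟨n₁, 1 / (2 * d ^ n₁ * R), R, by positivity, hR1, fun a ha => ?_⟩
  have hdn₁ : (1 : ℝ) ≤ d ^ n₁ := one_le_pow₀ (by linarith)
  by_cases hbig : R < logHeight a
  · right
    intro n _
    have h1 := hgrow a n
    have h2 : max 1 (logHeight a) = logHeight a := max_eq_right (by linarith)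
    rw [h2]
    have h3 : logHeight a / 2 ≤ logHeight a - |C| := by linarith
    have h4 : logHeight a / 2 * d ^ n ≤ logHeight ((stepR f)^[n] a) := by
      have := mul_le_mul_of_nonneg_right h3 (hdn n).le
      linarith
    refine le_trans ?_ h4
    have h5 : 1 / (2 * d ^ n₁ * R) ≤ 1 / 2 := by
      apply one_div_le_one_div_of_le (by norm_num)
      nlinarith
    have h6 : 0 ≤ (d : ℝ) ^ n * logHeight a := by
      have : 0 ≤ logHeight a := by linarith
      positivity
    nlinarith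
  · push Not at hbig
    by_cases hall : ∀ n ≤ n₁, logHeight ((stepR f)^[n] a) ≤ R
    · left
      refine ⟨hbig, ?_⟩
      apply hn₁ (fun n => (stepR f)^[n] a) (fun n => stepR_ne_zero f h0 a ha n)
      intro n hn
      have h1 := hall n hn
      rw [logHeight_eq_log_mulHeight] at h1
      rwa [Real.log_le_iff_le_exp (mulHeight_pos _)] at h1
    · push Not at hall
      right
      obtain ⟨j, hj, hjR⟩ := hall
      rintro n (hn | hn)
      · linarith
      · obtain ⟨m, rfl⟩ := Nat.exists_eq_add_of_le (hj.trans hn)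
        have h1 := hgrow ((stepR f)^[j] a) m
        rw [← Function.iterate_add_apply, Nat.add_comm m j] at h1
        have h2 : (d : ℝ) ^ m ≤ logHeight ((stepR f)^[j + m] a) := by
          have h3 : (1 : ℝ) ≤ logHeight ((stepR f)^[j] a) - |C| := by linarith
          have h4 := mul_le_mul_of_nonneg_right h3 (hdn m).le
          linarith
        refine le_trans ?_ h2
        have h5 : max 1 (logHeight a) ≤ R := max_le hR1 hbig
        have h6 : (d : ℝ) ^ (j + m) ≤ d ^ n₁ * d ^ m := by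
          rw [← pow_add]
          exact pow_le_pow_right₀ (by linarith) (by omega)
        rw [one_div, mul_assoc, inv_mul_le_iff₀ (by positivity)]
        have h7 : (0 : ℝ) ≤ max 1 (logHeight a) := le_trans zero_le_one (le_max_left _ _)
        calc (d : ℝ) ^ (j + m) * max 1 (logHeight a) ≤ (d ^ n₁ * d ^ m) * R :=
              mul_le_mul h6 h5 h7 (by positivity)
          _ ≤ 2 * d ^ n₁ * R * d ^ m := by
              have : 0 ≤ (d : ℝ) ^ n₁ * R * d ^ m := by positivity
              nlinarith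

end Pool.Agent.T2H39.UG
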