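import Pool.Agent.T2H39.UG.Count

set_option autoImplicit false

/-! The uniform gap principle for closed sets of dimension at most one. -/

namespace Pool.Agent.T2H39.UG

open MvPolynomial Height AdmissibleAbsValues Pool.Agent.R847.HG

/-- Sets with gaps of ratio `r` have few elements. -/
lemma card_gap {r C : ℝ} (hr : 1 < r) (hC : 0 ≤ C) (B : Set ℕ)
    (hB : ∀ m ∈ B, ∀ n ∈ B, m < n → r * m ≤ n + C) (X : ℕ) :
    (({n | n ≤ X} ∩ B).ncard : ℝ) ≤ C / (r - 1) + 3 + Real.logb r (X + 1) := by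
  classical
  have hr1 : 0 < r - 1 := by linarith
  set D : ℝ := C / (r - 1) with hD
  have hD0 : 0 ≤ D := by positivity
  have hCD : C = D * (r - 1) := by
    rw [hD]
    field_simp
  -- the large elements
  have key : ∀ T : Finset ℕ, (∀ m ∈ T, m ∈ B ∧ D + 1 ≤ m) → ∀ M ∈ T, (∀ m ∈ T, m ≤ M) →
      r ^ (T.card - 1) ≤ M - D := by
    intro T
    induction T using Finset.induction_on_max with
    | empty =>
      intro _ M hM
      simp at hM
    | insert a T ha ih =>
      intro hT M hM hmax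
      have haM : a = M := by
        apply le_antisymm (hmax a (Finset.mem_insert_self _ _))
        rcases Finset.mem_insert.1 hM with h | h
        · exact h.le
        · exact (ha M h).le
      subst haM
      have haT : a ∉ T := fun h => lt_irrefl _ (ha a h)
      rw [Finset.card_insert_of_notMem haT, Nat.add_sub_cancel]
      have haD := (hT a (Finset.mem_insert_self _ _)).2
      rcases T.eq_empty_or_nonempty with rfl | hne
      · rw [Finset.card_empty, pow_zero]
        linarith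
      · set M' := T.max' hne with hM'
        have hM'T : M' ∈ T := Finset.max'_mem _ _
        have h1 := ih (fun m hm => hT m (Finset.mem_insert_of_mem hm)) M' hM'T
          (fun m hm => Finset.le_max' _ _ hm)
        have h2 := hB M' (hT M' (Finset.mem_insert_of_mem hM'T)).1 a
          (hT a (Finset.mem_insert_self _ _)).1 (ha M' hM'T)
        have h3 : T.card = (T.card - 1) + 1 := by
          have := Finset.card_pos.2 hne
          omega
        rw [h3, pow_succ]
        have h4 : r * (M' - D) ≤ a - D := by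
          rw [hCD] at h2
          linarith
        calc r ^ (T.card - 1) * r ≤ (M' - D) * r := mul_le_mul_of_nonneg_right h1 (by linarith)
          _ ≤ a - D := by linarith
  have hfin : ({n | n ≤ X} ∩ B).Finite := (Set.finite_Iic X).subset Set.inter_subset_left
  set T := hfin.toFinset with hT
  have hcard : ({n | n ≤ X} ∩ B).ncard = T.card := Set.ncard_eq_toFinset_card _ hfin
  rw [hcard]
  set T1 : Finset ℕ := T.filter (fun m : ℕ => D + 1 ≤ (m : ℝ)) with hT1
  set T2 : Finset ℕ := T.filter (fun m : ℕ => ¬ D + 1 ≤ (m : ℝ)) with hT2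
  have hsum : T.card = T1.card + T2.card := (Finset.card_filter_add_card_filter_not
    (s := T) (fun m : ℕ => D + 1 ≤ (m : ℝ))).symm
  have h2 : (T2.card : ℝ) ≤ D + 2 := by
    have h3 : T2 ⊆ Finset.range (⌊D⌋₊ + 2) := by
      intro m hm
      rw [hT2, Finset.mem_filter, not_le] at hm
      rw [Finset.mem_range]
      have h4 : (m : ℝ) < D + 1 := hm.2
      have h5 : D < ⌊D⌋₊ + 1 := Nat.lt_floor_add_one D
      have h6 : (m : ℝ) < ((⌊D⌋₊ + 2 : ℕ) : ℝ) := by
        push_cast
        linarith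
      exact_mod_cast h6
    have h4 := Finset.card_le_card h3
    rw [Finset.card_range] at h4
    have h5 : ((⌊D⌋₊ : ℕ) : ℝ) ≤ D := Nat.floor_le hD0
    have h6 : (T2.card : ℝ) ≤ ((⌊D⌋₊ + 2 : ℕ) : ℝ) := by exact_mod_cast h4
    push_cast at h6
    linarith
  have h1 : (T1.card : ℝ) ≤ 1 + Real.logb r (X + 1) := by
    have hX0 : 0 ≤ Real.logb r (X + 1) := by
      apply Real.logb_nonneg hr
      have : (0 : ℝ) ≤ X := Nat.cast_nonneg _
      linarith
    rcases T1.eq_empty_or_nonempty with h | hne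
    · rw [h, Finset.card_empty, Nat.cast_zero]
      linarith
    · set M := T1.max' hne with hM
      have hMT : M ∈ T1 := Finset.max'_mem _ _
      have h3 := key T1 (by
        intro m hm
        rw [hT1, Finset.mem_filter, hT, Set.Finite.mem_toFinset] at hm
        exact ⟨hm.1.2, hm.2⟩) M hMT (fun m hm => Finset.le_max' _ _ hm)
      have h4 : (M : ℝ) ≤ X := by
        rw [hT1, Finset.mem_filter, hT, Set.Finite.mem_toFinset] at hMT
        exact_mod_cast hMT.1.1
      have h5 : r ^ (T1.card - 1) ≤ (X : ℝ) + 1 := by linarith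
      have h6 : ((T1.card - 1 : ℕ) : ℝ) ≤ Real.logb r (X + 1) := by
        rw [Real.le_logb_iff_rpow_le hr (by positivity), Real.rpow_natCast]
        exact h5
      have h7 : T1.card = (T1.card - 1) + 1 := by
        have := Finset.card_pos.2 hne
        omega
      rw [h7]
      push_cast
      linarith
  rw [hsum]
  push_cast
  linarith

lemma card_union {s : ℕ} (B : Fin s → Set ℕ) (X : ℕ) (E : ℝ)
    (h : ∀ i, (({n | n ≤ X} ∩ B i).ncard : ℝ) ≤ E) :
    (({n | n ≤ X} ∩ ⋃ i, B i).ncard : ℝ) ≤ s * E := by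
  classical
  have hfin : ∀ i, ({n | n ≤ X} ∩ B i).Finite := fun i =>
    (Set.finite_Iic X).subset Set.inter_subset_left
  have h1 : ({n | n ≤ X} ∩ ⋃ i, B i) ⊆
      ((Finset.univ.biUnion fun i => (hfin i).toFinset : Finset ℕ) : Set ℕ) := by
    rintro n ⟨hn, hn'⟩
    obtain ⟨i, hi⟩ := Set.mem_iUnion.1 hn'
    rw [Finset.mem_coe, Finset.mem_biUnion]
    exact ⟨i, Finset.mem_univ _, (Set.Finite.mem_toFinset _).2 ⟨hn, hi⟩⟩
  have h2 := Set.ncard_le_ncard h1 (Finset.finite_toSet _)
  rw [Set.ncard_coe_finset] at h2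
  have h3 : (Finset.univ.biUnion fun i => (hfin i).toFinset).card ≤
      ∑ i : Fin s, (hfin i).toFinset.card := Finset.card_biUnion_le
  have h4 : ((∑ i : Fin s, (hfin i).toFinset.card : ℕ) : ℝ) ≤ s * E := by
    push_cast
    calc ∑ i : Fin s, ((hfin i).toFinset.card : ℝ) ≤ ∑ _i : Fin s, E := by
          apply Finset.sum_le_sum
          intro i _
          rw [← Set.ncard_eq_toFinset_card _ (hfin i)]
          exact h i
      _ = s * E := by rw [Finset.sum_const, Finset.card_univ, Fintype.card_fin, nsmul_eq_mul]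
  calc (({n | n ≤ X} ∩ ⋃ i, B i).ncard : ℝ) ≤ ((∑ i : Fin s, (hfin i).toFinset.card : ℕ) : ℝ) := by
        exact_mod_cast h2.trans h3
    _ ≤ s * E := h4

variable {K L : Type} [Field K] [Infinite K] [Field L] [Algebra K L] [AdmissibleAbsValues K]
  {N d : ℕ}

lemma log_ineq {d : ℕ} (hd : 2 ≤ d) {c E H δ : ℝ} (hc : 0 < c) (hE : 1 ≤ E) (hH : 0 < H)
    {m n : ℕ} (hmn : m < n) (h : c * (d : ℝ) ^ (δ * m) * H ≤ E * d ^ (n - m)) :
    (1 + δ) * m + Real.logb d H ≤ n + |Real.logb d (E / c)| := by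
  have hd1 : (1 : ℝ) < d := by exact_mod_cast (show 1 < d by omega)
  have hd0 : (0 : ℝ) < d := by linarith
  have hE0 : 0 < E := by linarith
  have h1 : (d : ℝ) ^ (δ * m) * H ≤ (E / c) * d ^ (n - m) := by
    rw [div_mul_eq_mul_div, le_div_iff₀ hc]
    linarith
  have h2 := Real.logb_le_logb_of_le hd1 (by positivity) h1
  rw [Real.logb_mul (by positivity) hH.ne', Real.logb_mul (by positivity) (by positivity),
    Real.logb_rpow hd0 hd1.ne', Real.logb_pow, Real.logb_self_eq_one hd1, mul_one,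
    Nat.cast_sub hmn.le] at h2
  have h3 := le_abs_self (Real.logb d (E / c))
  linarith

/-- the data of the closed set which do not depend on the point -/
lemma pieces (hd : 2 ≤ d) (f : Fin (N + 1) → MvPolynomial (Fin (N + 1)) K)
    (hf : ∀ i, (f i).IsHomogeneous d) (V : Set (MvPolynomial (Fin (N + 1)) L))
    (hV : ∀ g ∈ V, ∃ e : ℕ, g.IsHomogeneous e)
    (hdim : ∀ i j l, ∃ P : MvPolynomial (Fin 3) L, P ≠ 0 ∧
      ∀ z : Fin (N + 1) → L, (∀ g ∈ V, eval z g = 0) → eval ![z i, z j, z l] P = 0) :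
    ∃ (s k : ℕ) (E : ℝ) (S : Fin s → Set (MvPolynomial (Fin (N + 1)) K)) (P : Fin s → Prop),
      0 < k ∧ 1 ≤ E ∧
      (∀ x : Fin (N + 1) → K, (∀ g ∈ V, eval (fun i => algebraMap K L (x i)) g = 0) ↔
        ∃ i, ∀ g ∈ S i, aeval x g = 0) ∧
      (∀ i, P i → ∀ x : Fin (N + 1) → K, (∀ g ∈ S i, aeval x g = 0) → ∀ t : ℕ,
        ∀ g ∈ S i, aeval ((stepR f)^[t * k] x) g = 0) ∧
      (∀ i, ¬ P i → ∀ k, 0 < k → ∀ x : Fin (N + 1) → K, x ≠ 0 → (∀ g ∈ S i, aeval x g = 0) →
        (∀ g ∈ S i, aeval ((stepR f)^[k] x) g = 0) → logHeight x ≤ E * d ^ k) := by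
  classical
  obtain ⟨s, S, hS1, hS2, hS3, hS4⟩ := exists_decomp (K := K) V hV hdim
  have hdich := fun i => dichotomy hd f hf (S i) (hS1 i) (hS2 i) (hS3 i)
  set P : Fin s → Prop := fun i => ∃ k, 0 < k ∧ ∀ x : Fin (N + 1) → K,
    (∀ g ∈ S i, aeval x g = 0) → ∀ g ∈ S i, aeval ((stepR f)^[k] x) g = 0 with hP
  have hk : ∀ i, ∃ k, 0 < k ∧ (P i → ∀ x : Fin (N + 1) → K,
      (∀ g ∈ S i, aeval x g = 0) → ∀ g ∈ S i, aeval ((stepR f)^[k] x) g = 0) := by
    intro i
    by_cases h : P i
    · obtain ⟨k, hk, h1⟩ := h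
      exact ⟨k, hk, fun _ => h1⟩
    · exact ⟨1, one_pos, fun h' => absurd h' h⟩
  choose k hk0 hk1 using hk
  have hE : ∀ i, ∃ E : ℝ, 0 ≤ E ∧ (¬ P i → ∀ k, 0 < k → ∀ x : Fin (N + 1) → K, x ≠ 0 →
      (∀ g ∈ S i, aeval x g = 0) →
      (∀ g ∈ S i, aeval ((stepR f)^[k] x) g = 0) → logHeight x ≤ E * d ^ k) := by
    intro i
    rcases hdich i with h | ⟨C, hC, h⟩
    · exact ⟨0, le_rfl, fun h' => absurd h h'⟩
    · exact ⟨C, hC, fun _ => h⟩
  choose E hE0 hE1 using hE
  have hEsum : ∀ i, E i ≤ 1 + ∑ j, E j := by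
    intro i
    have := Finset.single_le_sum (f := E) (fun j _ => hE0 j) (Finset.mem_univ i)
    linarith
  refine ⟨s, ∏ i, k i, 1 + ∑ i, E i, S, P, Finset.prod_pos fun i _ => hk0 i, ?_, hS4, ?_, ?_⟩
  · have := Finset.sum_nonneg (s := Finset.univ) (f := E) fun i _ => hE0 i
    linarith
  · intro i hPi x hx t
    obtain ⟨u, hu⟩ : k i ∣ ∏ i, k i := Finset.dvd_prod_of_mem k (Finset.mem_univ i)
    have h1 : ∀ w : ℕ, ∀ g ∈ S i, aeval ((stepR f)^[w * k i] x) g = 0 := by
      intro w
      induction w with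
      | zero => simpa using hx
      | succ w ih =>
        have h2 := hk1 i hPi _ ih
        rwa [← Function.iterate_add_apply, Nat.add_comm (k i), ← Nat.succ_mul] at h2
    have h2 := h1 (t * u)
    have h3 : t * u * k i = t * ∏ i, k i := by
      rw [hu]
      ring
    rwa [h3] at h2
  · intro i hPi k hk x hx0 hx hxk
    refine (hE1 i hPi k hk x hx0 hx hxk).trans ?_
    exact mul_le_mul_of_nonneg_right (hEsum i) (by positivity)

/-- **Uniform gap principle.** -/
theorem uniform_gap [Northcott (mulHeight₁ (K := K))]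
    (hd : 2 ≤ d) (f : Fin (N + 1) → MvPolynomial (Fin (N + 1)) K)
    (hf : ∀ i, (f i).IsHomogeneous d)
    (h0 : ∀ x : Fin (N + 1) → AlgebraicClosure K, (∀ i, aeval x (f i) = 0) → x = 0)
    (V : Set (MvPolynomial (Fin (N + 1)) L))
    (hV : ∀ g ∈ V, ∃ e : ℕ, g.IsHomogeneous e)
    (hdim : ∀ i j l, ∃ P : MvPolynomial (Fin 3) L, P ≠ 0 ∧
      ∀ z : Fin (N + 1) → L, (∀ g ∈ V, eval z g = 0) → eval ![z i, z j, z l] P = 0) :
    ∃ (s k : ℕ) (C : ℝ), 0 < k ∧ 0 ≤ C ∧ ∀ a : Fin (N + 1) → K, a ≠ 0 →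
      ∃ (A : Set ℕ) (B : Fin s → Set ℕ), ret f V a = A ∪ ⋃ i, B i ∧ (∀ n ∈ A, n + k ∈ A) ∧
        ∀ i, ∀ m ∈ B i, ∀ n ∈ B i, m < n →
          2 * (m : ℝ) + Real.logb d (max 1 (logHeight a)) ≤ n + C := by
  classical
  obtain ⟨s, k, E, S, P, hk, hE, hdec, hper, hgap⟩ := pieces hd f hf V hV hdim
  obtain ⟨n₁, c, R, hc, hR, hgrow⟩ := uniform_growth hd f hf h0
  have hd1 : (1 : ℝ) < d := by exact_mod_cast (show 1 < d by omega)
  have hRl : 0 ≤ Real.logb d R := Real.logb_nonneg hd1 hR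
  set C : ℝ := 2 * n₁ + Real.logb d R + |Real.logb d (E / c)| with hC
  have hsmall : ∀ (a : Fin (N + 1) → K) (m n : ℕ), logHeight a ≤ R → m ≤ n₁ →
      2 * (m : ℝ) + Real.logb d (max 1 (logHeight a)) ≤ n + C := by
    intro a m n ha hm
    have h1 : Real.logb d (max 1 (logHeight a)) ≤ Real.logb d R := by
      apply Real.logb_le_logb_of_le hd1 (by positivity)
      exact max_le hR ha
    have h2 : (m : ℝ) ≤ n₁ := by exact_mod_cast hm
    have h3 : (0 : ℝ) ≤ n := Nat.cast_nonneg _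
    have h4 := abs_nonneg (Real.logb d (E / c))
    rw [hC]
    linarith
  refine ⟨s + 1, n₁.factorial * k, C, Nat.mul_pos (Nat.factorial_pos _) hk, by positivity,
    fun a ha => ?_⟩
  have hretS : ∀ n, n ∈ ret f V a ↔ ∃ i, ∀ g ∈ S i, aeval ((stepR f)^[n] a) g = 0 := fun n =>
    hdec _
  rcases hgrow a ha with ⟨haR, m₀, n₀, hmn, hn₀, c', hc', hcx⟩ | hgr
  · -- preperiodic case
    have hper : ∀ t, ∃ c'' : K, c'' ≠ 0 ∧
        (stepR f)^[t + n₀] a = fun l => c'' * (stepR f)^[t + m₀] a l := by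
      intro t
      refine ⟨c' ^ d ^ t, pow_ne_zero _ hc', ?_⟩
      rw [Function.iterate_add_apply, Function.iterate_add_apply, hcx]
      exact stepR_scale f d hf c' _ t
    have hiff : ∀ t, t + n₀ ∈ ret f V a ↔ t + m₀ ∈ ret f V a := by
      intro t
      obtain ⟨c'', hc'', h1⟩ := hper t
      unfold ret
      simp only [Set.mem_ofPred_eq]
      have h2 : (fun i => algebraMap K L ((stepR f)^[t + n₀] a i)) =
          fun i => algebraMap K L c'' * algebraMap K L ((stepR f)^[t + m₀] a i) := by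
        funext i
        rw [h1, map_mul]
      have hc2 : algebraMap K L c'' ≠ 0 := by
        rwa [Ne, map_eq_zero]
      have h3 : ∀ g ∈ V, eval (fun i => algebraMap K L ((stepR f)^[t + n₀] a i)) g = 0 ↔
          eval (fun i => algebraMap K L ((stepR f)^[t + m₀] a i)) g = 0 := by
        intro g hg
        obtain ⟨e, he⟩ := hV g hg
        rw [h2]
        have h4 := aeval_scale g e he (algebraMap K L c'')
          (fun i => algebraMap K L ((stepR f)^[t + m₀] a i))
        change aeval (fun l => algebraMap K L c'' * algebraMap K L ((stepR f)^[t + m₀] a l)) g = 0 ↔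
          aeval (fun i => algebraMap K L ((stepR f)^[t + m₀] a i)) g = 0
        rw [h4]
        constructor
        · intro h5
          exact (mul_eq_zero.1 h5).resolve_left (pow_ne_zero _ hc2)
        · intro h5
          rw [h5, mul_zero]
      exact ⟨fun h g hg => (h3 g hg).1 (h g hg), fun h g hg => (h3 g hg).2 (h g hg)⟩
    set q := n₀ - m₀ with hq
    have hstep : ∀ t, m₀ ≤ t → t ∈ ret f V a → t + q ∈ ret f V a := by
      intro t ht h
      have h1 := (hiff (t - m₀)).2 (by rwa [Nat.sub_add_cancel ht])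
      have h2 : t - m₀ + n₀ = t + q := by omega
      rwa [h2] at h1
    have hmul : ∀ w t, m₀ ≤ t → t ∈ ret f V a → t + w * q ∈ ret f V a := by
      intro w
      induction w with
      | zero => intro t _ h; simpa using h
      | succ w ih =>
        intro t ht h
        have h1 := hstep _ (by omega) (ih t ht h)
        rwa [Nat.add_assoc, ← Nat.succ_mul] at h1
    refine ⟨{n | n ∈ ret f V a ∧ n₁ ≤ n},
      fun i => if i = Fin.last s then {n | n ∈ ret f V a ∧ n < n₁} else ∅, ?_, ?_, ?_⟩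
    · ext n
      constructor
      · intro hn
        by_cases h : n₁ ≤ n
        · exact Or.inl ⟨hn, h⟩
        · right
          rw [Set.mem_iUnion]
          refine ⟨Fin.last s, ?_⟩
          rw [if_pos rfl]
          exact ⟨hn, not_le.1 h⟩
      · rintro (hn | hn)
        · exact hn.1
        · rw [Set.mem_iUnion] at hn
          obtain ⟨i, hi⟩ := hn
          split_ifs at hi with h
          · exact hi.1
          · exact absurd hi (Set.notMem_empty _)
    · rintro n ⟨hn, hn1⟩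
      obtain ⟨u, hu⟩ : q ∣ n₁.factorial := Nat.dvd_factorial (by omega) (by omega)
      refine ⟨?_, by omega⟩
      have h1 := hmul (u * k) n (by omega) hn
      have h2 : u * k * q = n₁.factorial * k := by
        rw [hu]
        ring
      rwa [h2] at h1
    · intro i m hm n hn hmn'
      beta_reduce at hm
      split_ifs at hm with h
      · exact hsmall a m n haR hm.2.le
      · exact absurd hm (Set.notMem_empty _)
  · -- growing case
    have hne : ∀ n, (stepR f)^[n] a ≠ 0 := fun n => stepR_ne_zero f h0 a ha n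
    refine ⟨{n | ∃ i, P i ∧ ∀ g ∈ S i, aeval ((stepR f)^[n] a) g = 0},
      fun j => {n | ∃ i : Fin s, i.castSucc = j ∧ ¬ P i ∧
        ∀ g ∈ S i, aeval ((stepR f)^[n] a) g = 0}, ?_, ?_, ?_⟩
    · ext n
      rw [hretS]
      constructor
      · rintro ⟨i, hi⟩
        by_cases h : P i
        · exact Or.inl ⟨i, h, hi⟩
        · right
          rw [Set.mem_iUnion]
          exact ⟨i.castSucc, i, rfl, h, hi⟩
      · rintro (⟨i, _, hi⟩ | hn)
        · exact ⟨i, hi⟩
        · rw [Set.mem_iUnion] at hn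
          obtain ⟨j, i, _, _, hi⟩ := hn
          exact ⟨i, hi⟩
    · rintro n ⟨i, hPi, hi⟩
      refine ⟨i, hPi, ?_⟩
      have h1 := hper i hPi _ hi n₁.factorial
      rw [← Function.iterate_add_apply, Nat.add_comm (n₁.factorial * k)] at h1
      exact h1
    · rintro j m ⟨i, hij, hPi, hm⟩ n ⟨i', hij', _, hn⟩ hmn
      have hii : i' = i := Fin.castSucc_injective _ (hij'.trans hij.symm)
      subst hii
      by_cases hcase : R < logHeight a ∨ n₁ ≤ m
      · have h1 := hgr m hcase
        have h2 := hgap i' hPi (n - m) (by omega) _ (hne m) hm (by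
          rw [← Function.iterate_add_apply, Nat.sub_add_cancel hmn.le]
          exact hn)
        have h3 : 0 < max 1 (logHeight a) := lt_of_lt_of_le one_pos (le_max_left _ _)
        have h4 := log_ineq (δ := 1) hd hc hE h3 hmn (by
          rw [one_mul, Real.rpow_natCast]
          exact h1.trans h2)
        rw [hC]
        have h5 : (0 : ℝ) ≤ n₁ := Nat.cast_nonneg _
        linarith
      · push Not at hcase
        exact hsmall a m n hcase.1 hcase.2.le

/-- **Gap principle along orbits with exponentially growing heights.** -/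
theorem growth_gap (hd : 2 ≤ d) (f : Fin (N + 1) → MvPolynomial (Fin (N + 1)) K)
    (hf : ∀ i, (f i).IsHomogeneous d) (V : Set (MvPolynomial (Fin (N + 1)) L))
    (hV : ∀ g ∈ V, ∃ e : ℕ, g.IsHomogeneous e)
    (hdim : ∀ i j l, ∃ P : MvPolynomial (Fin 3) L, P ≠ 0 ∧
      ∀ z : Fin (N + 1) → L, (∀ g ∈ V, eval z g = 0) → eval ![z i, z j, z l] P = 0) :
    ∃ (s k : ℕ) (E : ℝ), 0 < k ∧ 1 ≤ E ∧ ∀ (a : Fin (N + 1) → K) (c r : ℝ) (n₀ : ℕ),
      0 < c → 1 < r → (∀ n, (stepR f)^[n] a ≠ 0) →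
      (∀ n, n₀ ≤ n → c * r ^ n ≤ logHeight ((stepR f)^[n] a)) →
      ∃ (A : Set ℕ) (B : Fin s → Set ℕ), ret f V a = A ∪ ⋃ i, B i ∧ (∀ n ∈ A, n + k ∈ A) ∧
        ∀ i, ∀ m ∈ B i, ∀ n ∈ B i, m < n →
          (1 + Real.logb d r) * (m : ℝ) ≤ n + ((1 + Real.logb d r) * n₀ + |Real.logb d (E / c)|) := by
  classical
  obtain ⟨s, k, E, S, P, hk, hE, hdec, hper, hgap⟩ := pieces hd f hf V hV hdim
  refine ⟨s, k, E, hk, hE, fun a c r n₀ hc hr hne hgr => ?_⟩
  have hd1 : (1 : ℝ) < d := by exact_mod_cast (show 1 < d by omega)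
  have hδ : 0 < Real.logb d r := Real.logb_pos hd1 hr
  set δ := Real.logb d r with hδd
  have hretS : ∀ n, n ∈ ret f V a ↔ ∃ i, ∀ g ∈ S i, aeval ((stepR f)^[n] a) g = 0 := fun n =>
    hdec _
  refine ⟨{n | ∃ i, P i ∧ ∀ g ∈ S i, aeval ((stepR f)^[n] a) g = 0},
    fun i => {n | ¬ P i ∧ ∀ g ∈ S i, aeval ((stepR f)^[n] a) g = 0}, ?_, ?_, ?_⟩
  · ext n
    rw [hretS]
    constructor
    · rintro ⟨i, hi⟩
      by_cases h : P i
      · exact Or.inl ⟨i, h, hi⟩
      · right
        rw [Set.mem_iUnion]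
        exact ⟨i, h, hi⟩
    · rintro (⟨i, _, hi⟩ | hn)
      · exact ⟨i, hi⟩
      · rw [Set.mem_iUnion] at hn
        obtain ⟨i, _, hi⟩ := hn
        exact ⟨i, hi⟩
  · rintro n ⟨i, hPi, hi⟩
    refine ⟨i, hPi, ?_⟩
    have h1 := hper i hPi _ hi 1
    rw [← Function.iterate_add_apply, one_mul, Nat.add_comm k] at h1
    exact h1
  · rintro i m ⟨hPi, hm⟩ n ⟨_, hn⟩ hmn
    have h6 := abs_nonneg (Real.logb d (E / c))
    by_cases hcase : n₀ ≤ m
    · have h1 := hgr m hcase
      have h2 := hgap i hPi (n - m) (by omega) _ (hne m) hm (by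
        rw [← Function.iterate_add_apply, Nat.sub_add_cancel hmn.le]
        exact hn)
      have h4 := log_ineq (δ := δ) hd hc hE one_pos hmn (by
        rw [mul_one, Real.rpow_mul (by positivity), hδd, Real.rpow_logb (by linarith) hd1.ne'
          (by linarith), Real.rpow_natCast]
        exact h1.trans h2)
      rw [Real.logb_one, add_zero] at h4
      have h5 : 0 ≤ (1 + δ) * n₀ := by positivity
      linarith
    · push Not at hcase
      have h1 : (m : ℝ) ≤ n₀ := by exact_mod_cast hcase.le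
      have h2 : (1 + δ) * (m : ℝ) ≤ (1 + δ) * n₀ := mul_le_mul_of_nonneg_left h1 (by linarith)
      have h3 : (0 : ℝ) ≤ n := Nat.cast_nonneg _
      linarith

end Pool.Agent.T2H39.UG
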